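import Pool.Agent.Helper15.EP.St

set_option autoImplicit false

open Polynomial Pool.Agent.Helper15.FC Pool.Agent.Helper15.EP

namespace Pool.Agent.Helper78.EP

noncomputable section

variable {F : Type} [Field F] [Fintype F]

/-- splitting off the first coordinate -/
theorem tup_succ {k : ℕ} (x : Fin (k + 1) → ℕ) (G : (Fin (k + 1) → F[X]) → ℝ) :
    ∑ a ∈ Tup F x, G a = ∑ a0 ∈ Mn F (x 0),
      ∑ a' ∈ Tup F (fun i : Fin k => x i.succ), G (Fin.cons a0 a') := by
  classical
  rw [← Finset.sum_product']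
  symm
  refine Finset.sum_bij' (fun p _ => (Fin.cons p.1 p.2 : Fin (k + 1) → F[X]))
    (fun a _ => (a 0, fun i : Fin k => a i.succ)) ?_ ?_ ?_ ?_ ?_
  · rintro ⟨a0, a'⟩ h
    rw [Finset.mem_product] at h
    unfold Tup at h ⊢
    rw [Fintype.mem_piFinset] at h ⊢
    intro i
    refine Fin.cases ?_ (fun j => ?_) i
    · exact h.1
    · exact h.2 j
  · intro a h
    rw [Finset.mem_product]
    unfold Tup at h ⊢
    rw [Fintype.mem_piFinset] at h ⊢
    exact ⟨h 0, fun j => h j.succ⟩
  · rintro ⟨a0, a'⟩ h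
    rfl
  · intro a h
    funext i
    refine Fin.cases ?_ (fun j => ?_) i
    · rfl
    · rfl
  · rintro ⟨a0, a'⟩ h
    rfl

/-- functions depending on the residue modulo `e` -/
theorem sum_Mn_mod {e : F[X]} (he : e.Monic) {n : ℕ} (hn : e.natDegree ≤ n) (Φ : F[X] → ℝ)
    (hΦ : ∀ f w : F[X], Φ (e * w + f) = Φ f) :
    ∑ f ∈ Mn F n, Φ f = qr F ^ (n - e.natDegree) * ∑ z ∈ Lw F e.natDegree, Φ z := by
  classical
  have h1 : ∑ p ∈ Lw F e.natDegree ×ˢ Mn F (n - e.natDegree), Φ p.1 = ∑ f ∈ Mn F n, Φ f := by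
    refine Finset.sum_bij' (fun p _ => e * p.2 + p.1) (fun f _ => (f %ₘ e, f /ₘ e)) ?_ ?_ ?_ ?_ ?_
    · rintro ⟨z, w⟩ h
      rw [Finset.mem_product, mem_Lw, mem_Mn] at h
      obtain ⟨h1, h2, h3⟩ := h
      simp only at h1 h2 h3
      have h4 : (e * w).Monic := he.mul h2
      have h5 : (e * w).natDegree = n := by
        rw [he.natDegree_mul h2, h3]
        omega
      have h6 : z.degree < (e * w).degree := by
        rw [Polynomial.degree_eq_natDegree h4.ne_zero, h5]
        exact lt_of_lt_of_le h1 (by exact_mod_cast hn)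
      rw [mem_Mn]
      refine ⟨h4.add_of_left h6, ?_⟩
      change (e * w + z).natDegree = n
      rw [Polynomial.natDegree_add_eq_left_of_degree_lt h6, h5]
    · intro f hf
      rw [mem_Mn] at hf
      rw [Finset.mem_product, mem_Lw, mem_Mn]
      have hle : e.degree ≤ f.degree := by
        rw [Polynomial.degree_eq_natDegree he.ne_zero, Polynomial.degree_eq_natDegree hf.1.ne_zero,
          hf.2]
        exact_mod_cast hn
      refine ⟨?_, ?_, ?_⟩
      · have := Polynomial.degree_modByMonic_lt f he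
        rwa [Polynomial.degree_eq_natDegree he.ne_zero] at this
      · change (f /ₘ e).leadingCoeff = 1
        rw [Polynomial.leadingCoeff_divByMonic_of_monic he hle]
        exact hf.1
      · change (f /ₘ e).natDegree = _
        rw [Polynomial.natDegree_divByMonic f he, hf.2]
    · rintro ⟨z, w⟩ h
      rw [Finset.mem_product, mem_Lw] at h
      have h1 : z.degree < e.degree := by
        rw [Polynomial.degree_eq_natDegree he.ne_zero]
        exact h.1
      have h2 := Polynomial.div_modByMonic_unique (f := e * w + z) (g := e) w z he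
        ⟨by ring, h1⟩
      simp only [h2.1, h2.2]
    · intro f hf
      have := Polynomial.modByMonic_add_div f e
      change e * (f /ₘ e) + f %ₘ e = f
      linear_combination this
    · rintro ⟨z, w⟩ h
      exact (hΦ z w).symm
  rw [← h1, Finset.sum_product, Finset.mul_sum]
  refine Finset.sum_congr rfl fun z _ => ?_
  change ∑ _y ∈ Mn F (n - e.natDegree), Φ z = _
  rw [Finset.sum_const, card_Mn, nsmul_eq_mul]
  push_cast
  rfl

/-- classification of the residues modulo `e` by the gcd with `e` -/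
theorem sum_Lw_gcd {e : F[X]} (he : e.Monic) (Φ Ψ : F[X] → ℝ)
    (hΦ : ∀ g e' z : F[X], e = g * e' → IsCoprime z e' → Φ (g * z) = Ψ e') :
    ∑ z ∈ Lw F e.natDegree, Φ z = ∑ e' ∈ Dv e, (phi e' : ℝ) * Ψ e' := by
  classical
  have hdiv : ∀ e' ∈ Dv e, e = (e / e') * e' ∧ (e / e').Monic := by
    intro e' he'
    rw [mem_Dv he.ne_zero] at he'
    have h1 : e = (e / e') * e' := by
      rw [mul_comm]
      exact (EuclideanDomain.mul_div_cancel' he'.1.ne_zero he'.2).symm
    refine ⟨h1, ?_⟩
    refine Polynomial.Monic.of_mul_monic_right he'.1 ?_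
    rw [← h1]
    exact he
  have h1 : ∑ e' ∈ Dv e, (phi e' : ℝ) * Ψ e' = ∑ e' ∈ Dv e,
      ∑ z ∈ (Lw F e'.natDegree).filter (fun z => IsCoprime z e'), Φ ((e / e') * z) := by
    refine Finset.sum_congr rfl fun e' he' => ?_
    rw [Finset.sum_congr rfl (fun z hz => hΦ (e / e') e' z (hdiv e' he').1
      (Finset.mem_filter.1 hz).2), Finset.sum_const, nsmul_eq_mul]
    rfl
  rw [h1, Finset.sum_sigma']
  symm
  refine Finset.sum_bij (fun p _ => (e / p.1) * p.2) ?_ ?_ ?_ ?_
  · rintro ⟨e', z⟩ h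
    rw [Finset.mem_sigma, Finset.mem_filter, mem_Lw] at h
    obtain ⟨h1, h2, h3⟩ := h
    simp only at h1 h2 h3
    obtain ⟨h4, h5⟩ := hdiv e' h1
    rw [mem_Dv he.ne_zero] at h1
    rw [mem_Lw]
    change ((e / e') * z).degree < _
    have h6 : e.degree = (e / e').degree + e'.degree := by
      conv_lhs => rw [h4]
      rw [Polynomial.degree_mul]
    rw [← Polynomial.degree_eq_natDegree he.ne_zero, h6, Polynomial.degree_mul]
    rw [← Polynomial.degree_eq_natDegree h1.1.ne_zero] at h2
    exact WithBot.add_lt_add_left (Polynomial.degree_ne_bot.2 h5.ne_zero) h2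
  · rintro ⟨e1, z1⟩ h1 ⟨e2, z2⟩ h2 heq
    rw [Finset.mem_sigma, Finset.mem_filter, mem_Lw] at h1 h2
    obtain ⟨h11, h12, h13⟩ := h1
    obtain ⟨h21, h22, h23⟩ := h2
    simp only at h11 h12 h13 h21 h22 h23 heq
    obtain ⟨h14, h15⟩ := hdiv e1 h11
    obtain ⟨h24, h25⟩ := hdiv e2 h21
    have hd : ∀ (g1 g2 f1 f2 y1 y2 : F[X]), e = g1 * f1 → e = g2 * f2 → g1 * y1 = g2 * y2 →
        IsCoprime y2 f2 → g1 ∣ g2 := by
      rintro g1 g2 f1 f2 y1 y2 hh1 hh2 hh3 ⟨a, b, hh4⟩
      refine ⟨a * y1 + b * f1, ?_⟩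
      have : g2 = a * (g2 * y2) + b * (g2 * f2) := by
        linear_combination (-g2) * hh4
      rw [this, ← hh3, ← hh2, hh1]
      ring
    have hgg : e / e1 = e / e2 := by
      refine Polynomial.eq_of_monic_of_associated h15 h25 (associated_of_dvd_dvd
        (hd _ _ _ _ _ _ h14 h24 heq h23) (hd _ _ _ _ _ _ h24 h14 heq.symm h13))
    have hee : e1 = e2 := by
      have h3 : (e / e1) * e1 = (e / e1) * e2 := by
        rw [← h14, hgg, ← h24]
      exact mul_left_cancel₀ h15.ne_zero h3
    subst hee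
    have hzz : z1 = z2 := mul_left_cancel₀ h15.ne_zero heq
    subst hzz
    rfl
  · intro z hz
    rw [mem_Lw] at hz
    have hg0 : EuclideanDomain.gcd z e ≠ 0 := by
      intro h
      rw [EuclideanDomain.gcd_eq_zero_iff] at h
      exact he.ne_zero h.2
    set g0 := EuclideanDomain.gcd z e with hg0def
    obtain ⟨z0, hz0⟩ := EuclideanDomain.gcd_dvd_left z e
    obtain ⟨e0, he0⟩ := EuclideanDomain.gcd_dvd_right z e
    rw [← hg0def] at hz0 he0
    set c := g0.leadingCoeff with hc
    have hc0 : c ≠ 0 := Polynomial.leadingCoeff_ne_zero.2 hg0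
    have hcc : (Polynomial.C c : F[X]) * Polynomial.C c⁻¹ = 1 := by
      rw [← Polynomial.C_mul, mul_inv_cancel₀ hc0, Polynomial.C_1]
    have hg : (g0 * Polynomial.C c⁻¹).Monic := Polynomial.monic_mul_leadingCoeff_inv hg0
    have hcop : IsCoprime z0 e0 := by
      have hb := EuclideanDomain.gcd_eq_gcd_ab z e
      rw [← hg0def] at hb
      refine ⟨EuclideanDomain.gcdA z e, EuclideanDomain.gcdB z e, ?_⟩
      refine mul_left_cancel₀ hg0 ?_
      calc g0 * (EuclideanDomain.gcdA z e * z0 + EuclideanDomain.gcdB z e * e0)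
          = (g0 * z0) * EuclideanDomain.gcdA z e + (g0 * e0) * EuclideanDomain.gcdB z e := by ring
        _ = z * EuclideanDomain.gcdA z e + e * EuclideanDomain.gcdB z e := by rw [← hz0, ← he0]
        _ = g0 * 1 := by rw [← hb, mul_one]
    have he1 : e = (g0 * Polynomial.C c⁻¹) * (Polynomial.C c * e0) := by
      rw [he0]
      linear_combination (-(g0 * e0)) * hcc
    have hz1 : z = (g0 * Polynomial.C c⁻¹) * (Polynomial.C c * z0) := by
      conv_lhs => rw [hz0]
      linear_combination (-(g0 * z0)) * hcc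
    have hem : (Polynomial.C c * e0).Monic := by
      refine hg.of_mul_monic_left ?_
      rw [← he1]
      exact he
    have hcu : IsUnit (Polynomial.C c : F[X]) := IsUnit.of_mul_eq_one _ hcc
    have hcop' : IsCoprime (Polynomial.C c * z0) (Polynomial.C c * e0) := by
      rw [isCoprime_mul_unit_left_left hcu, isCoprime_mul_unit_left_right hcu]
      exact hcop
    have hediv : e / (Polynomial.C c * e0) = g0 * Polynomial.C c⁻¹ := by
      refine mul_right_cancel₀ hem.ne_zero ?_
      rw [← he1]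
      rw [mul_comm]
      exact EuclideanDomain.mul_div_cancel' hem.ne_zero ⟨_, by rw [mul_comm]; exact he1⟩
    refine ⟨⟨Polynomial.C c * e0, Polynomial.C c * z0⟩, ?_, ?_⟩
    · rw [Finset.mem_sigma, Finset.mem_filter, mem_Lw]
      refine ⟨(mem_Dv he.ne_zero).2 ⟨hem, ⟨_, by rw [mul_comm]; exact he1⟩⟩, ?_, hcop'⟩
      change (Polynomial.C c * z0).degree < ((Polynomial.C c * e0).natDegree : WithBot ℕ)
      rw [← Polynomial.degree_eq_natDegree hem.ne_zero]
      rw [← Polynomial.degree_eq_natDegree he.ne_zero] at hz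
      have h6 : e.degree = (g0 * Polynomial.C c⁻¹).degree + (Polynomial.C c * e0).degree := by
        conv_lhs => rw [he1]
        rw [Polynomial.degree_mul]
      have h7 : z.degree = (g0 * Polynomial.C c⁻¹).degree + (Polynomial.C c * z0).degree := by
        conv_lhs => rw [hz1]
        rw [Polynomial.degree_mul]
      rw [h6, h7] at hz
      exact lt_of_add_lt_add_left hz
    · change (e / (Polynomial.C c * e0)) * (Polynomial.C c * z0) = z
      rw [hediv]
      exact hz1.symm
  · rintro ⟨e', z⟩ h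
    rfl

/-- the recursion for `Dc` -/
theorem Dc_succ {k : ℕ} (x : Fin (k + 1) → ℕ) {e : F[X]} (he : e.Monic) (h0 : e.natDegree ≤ x 0) :
    (Dc e x : ℝ) = qr F ^ (x 0 - e.natDegree) *
      ∑ e' ∈ Dv e, (phi e' : ℝ) * (Dc e' (fun i : Fin k => x i.succ) : ℝ) := by
  classical
  have hDc : ∀ (j : ℕ) (y : Fin j → ℕ) (f : F[X]), (Dc f y : ℝ) =
      ∑ a ∈ Tup F y, if f ∣ ∏ i, a i then (1 : ℝ) else 0 := by
    intro j y f
    unfold Dc
    rw [Finset.card_filter]
    push_cast
    rfl
  rw [hDc, tup_succ]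
  rw [sum_Mn_mod he h0 (fun a0 => ∑ a' ∈ Tup F (fun i : Fin k => x i.succ),
    if e ∣ ∏ i, (Fin.cons a0 a' : Fin (k + 1) → F[X]) i then (1 : ℝ) else 0) ?_]
  · congr 1
    refine sum_Lw_gcd he _ _ ?_
    intro g e' z hge hco
    rw [hDc]
    refine Finset.sum_congr rfl fun a' _ => ?_
    have hg : g ≠ 0 := by
      rintro rfl
      rw [zero_mul] at hge
      exact he.ne_zero hge
    have hiff : e ∣ ∏ i, (Fin.cons (g * z) a' : Fin (k + 1) → F[X]) i ↔ e' ∣ ∏ i, a' i := by
      rw [Fin.prod_univ_succ]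
      simp only [Fin.cons_zero, Fin.cons_succ]
      rw [hge, mul_assoc, mul_dvd_mul_iff_left hg]
      exact ⟨fun h => hco.symm.dvd_of_dvd_mul_left h, fun h => Dvd.dvd.mul_left h z⟩
    by_cases hh : e' ∣ ∏ i, a' i
    · rw [if_pos hh, if_pos (hiff.2 hh)]
    · rw [if_neg hh, if_neg (fun h => hh (hiff.1 h))]
  · intro f w
    refine Finset.sum_congr rfl fun a' _ => ?_
    have hiff : e ∣ ∏ i, (Fin.cons (e * w + f) a' : Fin (k + 1) → F[X]) i ↔
        e ∣ ∏ i, (Fin.cons f a' : Fin (k + 1) → F[X]) i := by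
      rw [Fin.prod_univ_succ, Fin.prod_univ_succ]
      simp only [Fin.cons_zero, Fin.cons_succ]
      rw [add_mul, mul_assoc]
      exact (dvd_add_right (Dvd.intro _ rfl))
    by_cases hh : e ∣ ∏ i, (Fin.cons f a' : Fin (k + 1) → F[X]) i
    · rw [if_pos hh, if_pos (hiff.2 hh)]
    · rw [if_neg hh, if_neg (fun h => hh (hiff.1 h))]

/-- **GPR** (divisibility of products, equidistribution) -/
theorem hGPR : StGPR := by
  intro F _ _ k
  induction k with
  | zero =>
    intro x e he _
    classical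
    have h1 : (Dc e x : ℝ) = if e = 1 then 1 else 0 := by
      unfold Dc
      rw [Finset.card_filter]
      have h2 : Tup F x = {(fun i => Fin.elim0 i : Fin 0 → F[X])} := by
        unfold Tup
        ext a
        rw [Fintype.mem_piFinset, Finset.mem_singleton]
        exact ⟨fun _ => Subsingleton.elim _ _, fun _ i => Fin.elim0 i⟩
      rw [h2, Finset.sum_singleton]
      simp only [Finset.univ_eq_empty, Finset.prod_empty]
      by_cases h : e = 1
      · subst h
        simp
      · rw [if_neg h, if_neg]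
        · simp
        · intro hd
          exact h (he.eq_one_of_isUnit (isUnit_of_dvd_one hd))
    rw [h1]
    by_cases h : e = 1
    · subst h
      simp [Gk]
    · simp [Gk, h]
  | succ k ih =>
    intro x e he hx
    have hq : (0 : ℝ) < qr F := by
      unfold qr
      exact_mod_cast Fintype.card_pos
    rw [Dc_succ x he (hx 0)]
    have h1 : ∀ e' ∈ Dv e, (phi e' : ℝ) * (Dc e' (fun i : Fin k => x i.succ) : ℝ) =
        qr F ^ (∑ i : Fin k, x i.succ) * ((phi e' : ℝ) / qr F ^ e'.natDegree * Gk k e') := by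
      intro e' he'
      rw [mem_Dv he.ne_zero] at he'
      have h2 := ih (fun i : Fin k => x i.succ) e' he'.1 (fun i =>
        (Polynomial.natDegree_le_of_dvd he'.2 he.ne_zero).trans (hx i.succ))
      have h3 : (Dc e' (fun i : Fin k => x i.succ) : ℝ) =
          qr F ^ (∑ i : Fin k, x i.succ) * Gk k e' / qr F ^ e'.natDegree := by
        rw [eq_div_iff (pow_pos hq _).ne']
        exact h2
      rw [h3]
      ring
    rw [Finset.sum_congr rfl h1, ← Finset.mul_sum]
    have h4 : qr F ^ (x 0 - e.natDegree) * qr F ^ e.natDegree = qr F ^ (x 0) := by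
      rw [← pow_add]
      congr 1
      have := hx 0
      omega
    rw [Fin.sum_univ_succ, pow_add]
    have h5 : Gk (k + 1) e = ∑ e' ∈ Dv e, (phi e' : ℝ) / qr F ^ e'.natDegree * Gk k e' := rfl
    rw [h5, ← h4]
    ring

end

end Pool.Agent.Helper78.EP
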