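import Pool.Agent.Helper15.EP.St

set_option autoImplicit false

open Polynomial Pool.Agent.Helper15.FC Pool.Agent.Helper15.EP

namespace Pool.Agent.Helper78.EP

noncomputable section

/-- the bracket in the difference `A2 t - mean of A2 (u t)` -/
def Brk {F : Type} [Field F] [Fintype F] (m A t : F[X]) (ν1 ν2 : AddChar F[X] ℂ) : ℂ :=
  KS m A t ν1 ν2 - (1 / (phi m : ℂ)) * ∑ u ∈ Lc m, KS m A (u * t) ν1 ν2

open scoped Classical in
/-- the number of nontrivial characters of a smaller modulus -/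
theorem card_small {F : Type} [Field F] [Fintype F] (hKC3 : StKC3) (hACF : StACF)
    (m m' : F[X]) (β : ℕ) (hm' : m'.Monic) :
    ((((Oc m β).filter (fun ν => ν ≠ 1)).filter (fun ν => ν⁻¹ ∈ AC m')).card : ℝ) * qr F ^ β ≤
      qr F ^ m'.natDegree := by
  have hq : (0 : ℝ) < qr F := by
    unfold qr
    exact_mod_cast Fintype.card_pos
  refine le_trans ?_ (hKC3 F m' β hm')
  refine mul_le_mul_of_nonneg_right ?_ (pow_pos hq _).le
  norm_cast
  refine Finset.card_le_card ?_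
  intro ν hν
  rw [Finset.mem_filter, Finset.mem_filter] at hν
  obtain ⟨⟨h1, h2⟩, h3⟩ := hν
  rw [Finset.mem_filter]
  refine ⟨?_, h2⟩
  unfold Oc at h1 ⊢
  rw [Finset.mem_filter] at h1 ⊢
  refine ⟨?_, h1.2⟩
  rw [((hACF F).2 m' hm').2.1]
  intro g
  have h4 := h3 (-g)
  rw [AddChar.inv_apply] at h4
  rw [← h4]
  congr 1
  ring

theorem hKCN (hKBD : StKBD) (hKC1 : StKC1) (hKC2 : StKC2) (hKC3 : StKC3) (hACF : StACF)
    (hPHI : StPHI) : StKCN := by
  classical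
  intro F _ _ m1 m2 A t β γ hm1 hm2 hsq hco hct ht
  set m : F[X] := m1 * m2 with hmdef
  have hm : m.Monic := hm1.mul hm2
  have hq : (0 : ℝ) < qr F := by
    unfold qr
    exact_mod_cast Fintype.card_pos
  have hq1 : (1 : ℝ) ≤ qr F := by
    unfold qr
    exact_mod_cast Fintype.card_pos
  have hs0 : (0 : ℝ) < Real.sqrt (qr F) := Real.sqrt_pos.2 hq
  have hs1 : (1 : ℝ) ≤ Real.sqrt (qr F) := Real.one_le_sqrt.2 hq1
  obtain ⟨hphi1, -, -⟩ := hPHI F m hm
  have hphi0 : (0 : ℝ) < phi m := by exact_mod_cast hphi1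
  have hphiC : (phi m : ℂ) ≠ 0 := by
    exact_mod_cast hphi0.ne'
  set μ := m.natDegree with hμ
  set K : ℝ := tau m1 * qr F ^ t.natDegree * Real.sqrt (qr F) ^ m1.natDegree *
    qr F ^ m2.natDegree with hK
  have hK0 : 0 ≤ K := by
    rw [hK]
    have : (0 : ℝ) ≤ tau m1 := by
      unfold tau
      positivity
    positivity
  -- the difference
  set D : ℝ := (A2 β γ m A t : ℝ) - (1 / (phi m : ℝ)) * ∑ u ∈ Lc m, (A2 β γ m A (u * t) : ℝ)
    with hD
  have hexp : (Fintype.card F : ℂ) ^ (2 * μ) * (D : ℂ) = (Fintype.card F : ℂ) ^ (β + γ) *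
      ∑ ν1 ∈ Oc m β, ∑ ν2 ∈ Oc m γ, ν1 (X ^ β) * ν2 (X ^ γ) * Brk m A t ν1⁻¹ ν2⁻¹ := by
    have h1 := hKC1 F m A t β γ hm
    have h2 : (Fintype.card F : ℂ) ^ (2 * μ) * ((1 / (phi m : ℂ)) *
        ∑ u ∈ Lc m, (A2 β γ m A (u * t) : ℂ)) = (Fintype.card F : ℂ) ^ (β + γ) *
        ∑ ν1 ∈ Oc m β, ∑ ν2 ∈ Oc m γ, ν1 (X ^ β) * ν2 (X ^ γ) *
          ((1 / (phi m : ℂ)) * ∑ u ∈ Lc m, KS m A (u * t) ν1⁻¹ ν2⁻¹) := by
      calc (Fintype.card F : ℂ) ^ (2 * μ) * ((1 / (phi m : ℂ)) *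
            ∑ u ∈ Lc m, (A2 β γ m A (u * t) : ℂ))
          = (1 / (phi m : ℂ)) * ∑ u ∈ Lc m,
              ((Fintype.card F : ℂ) ^ (2 * μ) * (A2 β γ m A (u * t) : ℂ)) := by
            rw [← Finset.mul_sum]
            ring
        _ = (1 / (phi m : ℂ)) * ∑ u ∈ Lc m, ((Fintype.card F : ℂ) ^ (β + γ) *
              ∑ ν1 ∈ Oc m β, ∑ ν2 ∈ Oc m γ,
                ν1 (X ^ β) * ν2 (X ^ γ) * KS m A (u * t) ν1⁻¹ ν2⁻¹) := by
            congr 1
            refine Finset.sum_congr rfl fun u _ => ?_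
            exact hKC1 F m A (u * t) β γ hm
        _ = _ := by
            rw [← Finset.mul_sum, Finset.sum_comm]
            rw [mul_left_comm, Finset.mul_sum]
            congr 1
            refine Finset.sum_congr rfl fun ν1 _ => ?_
            rw [Finset.sum_comm, Finset.mul_sum]
            refine Finset.sum_congr rfl fun ν2 _ => ?_
            rw [← Finset.mul_sum]
            ring
    have h3 : (D : ℂ) = (A2 β γ m A t : ℂ) - (1 / (phi m : ℂ)) *
        ∑ u ∈ Lc m, (A2 β γ m A (u * t) : ℂ) := by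
      rw [hD]
      push_cast
      rfl
    rw [h3, mul_sub, h2, h1, ← mul_sub, ← Finset.sum_sub_distrib]
    congr 1
    refine Finset.sum_congr rfl fun ν1 _ => ?_
    rw [← Finset.sum_sub_distrib]
    refine Finset.sum_congr rfl fun ν2 _ => ?_
    unfold Brk
    ring
  -- the bracket vanishes if one of the characters is trivial
  have hBr0 : ∀ ν1 ν2 : AddChar F[X] ℂ, (ν1 = 1 ∨ ν2 = 1) → Brk m A t ν1 ν2 = 0 := by
    intro ν1 ν2 h
    unfold Brk
    have h1 : ∀ u ∈ Lc m, KS m A (u * t) ν1 ν2 = KS m A t ν1 ν2 := by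
      intro u hu
      unfold Lc at hu
      exact hKC2 F m A t u ν1 ν2 hm (Finset.mem_filter.1 hu).2 h
    rw [Finset.sum_congr rfl h1, Finset.sum_const, card_Lc, nsmul_eq_mul]
    field_simp
    ring
  -- the bound of the bracket
  set bd : AddChar F[X] ℂ → AddChar F[X] ℂ → ℝ := fun ν1 ν2 =>
    ∑ d ∈ Dv m1, (if ν1 ∈ AC (m1 / d * m2) ∧ ν2 ∈ AC (m1 / d * m2) then
      Real.sqrt (qr F) ^ d.natDegree else 0) with hbd
  have hBrB : ∀ ν1 ν2 : AddChar F[X] ℂ, ν1 ∈ AC m → ν2 ∈ AC m →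
      ‖Brk m A t ν1 ν2‖ ≤ 2 * K * bd ν1 ν2 := by
    intro ν1 ν2 h1 h2
    have hk : ∀ u : F[X], IsCoprime u m → ‖KS m A (u * t) ν1 ν2‖ ≤ K * bd ν1 ν2 := by
      intro u hu
      exact hKBD F m1 m2 A t u ν1 ν2 hm1 hm2 hsq hco hct ht hu h1 h2
    have hk1 : ‖KS m A t ν1 ν2‖ ≤ K * bd ν1 ν2 := by
      have := hk 1 isCoprime_one_left
      rwa [one_mul] at this
    have hk2 : ‖(1 / (phi m : ℂ)) * ∑ u ∈ Lc m, KS m A (u * t) ν1 ν2‖ ≤ K * bd ν1 ν2 := by
      rw [norm_mul, norm_div, norm_one, Complex.norm_natCast]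
      have h3 : ‖∑ u ∈ Lc m, KS m A (u * t) ν1 ν2‖ ≤ (phi m : ℝ) * (K * bd ν1 ν2) := by
        refine (norm_sum_le _ _).trans ?_
        have h4 : ∀ u ∈ Lc m, ‖KS m A (u * t) ν1 ν2‖ ≤ K * bd ν1 ν2 := by
          intro u hu
          unfold Lc at hu
          exact hk u (Finset.mem_filter.1 hu).2
        refine (Finset.sum_le_card_nsmul _ _ _ h4).trans ?_
        rw [card_Lc, nsmul_eq_mul]
      rw [one_div, inv_mul_le_iff₀ hphi0]
      exact h3
    unfold Brk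
    refine (norm_sub_le _ _).trans ?_
    linarith
  -- memberships
  have hOc : ∀ (δ : ℕ) (ν : AddChar F[X] ℂ), ν ∈ Oc m δ → ν⁻¹ ∈ AC m := by
    intro δ ν h
    unfold Oc at h
    have h1 : ν ∈ AC m := (((hACF F).2 m hm).2.1 ν).1 (Finset.mem_filter.1 h).1
    intro g
    rw [AddChar.inv_apply, ← mul_neg]
    exact h1 (-g)
  have hnorm : ∀ (ν : AddChar F[X] ℂ) (g : F[X]), ‖ν g‖ = 1 := fun ν g => ((hACF F).1 ν g).1
  -- the sum
  have hsum : ‖∑ ν1 ∈ Oc m β, ∑ ν2 ∈ Oc m γ, ν1 (X ^ β) * ν2 (X ^ γ) * Brk m A t ν1⁻¹ ν2⁻¹‖ ≤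
      2 * K * ∑ ν1 ∈ (Oc m β).filter (fun ν => ν ≠ 1), ∑ ν2 ∈ (Oc m γ).filter (fun ν => ν ≠ 1),
        bd ν1⁻¹ ν2⁻¹ := by
    have h1 : ∑ ν1 ∈ Oc m β, ∑ ν2 ∈ Oc m γ, ν1 (X ^ β) * ν2 (X ^ γ) * Brk m A t ν1⁻¹ ν2⁻¹ =
        ∑ ν1 ∈ (Oc m β).filter (fun ν => ν ≠ 1), ∑ ν2 ∈ (Oc m γ).filter (fun ν => ν ≠ 1),
          ν1 (X ^ β) * ν2 (X ^ γ) * Brk m A t ν1⁻¹ ν2⁻¹ := by
      symm
      rw [Finset.sum_filter_of_ne]
      · refine Finset.sum_congr rfl fun ν1 _ => ?_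
        rw [Finset.sum_filter_of_ne]
        intro ν2 _ h
        rintro rfl
        apply h
        rw [hBr0 _ _ (Or.inr inv_one), mul_zero]
      · intro ν1 _ h
        rintro rfl
        apply h
        refine Finset.sum_eq_zero fun ν2 _ => ?_
        rw [hBr0 _ _ (Or.inl inv_one), mul_zero]
    rw [h1, Finset.mul_sum]
    refine (norm_sum_le _ _).trans (Finset.sum_le_sum fun ν1 h1' => ?_)
    rw [Finset.mul_sum]
    refine (norm_sum_le _ _).trans (Finset.sum_le_sum fun ν2 h2' => ?_)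
    rw [norm_mul, norm_mul, hnorm, hnorm, one_mul, one_mul]
    exact hBrB _ _ (hOc β ν1 (Finset.mem_filter.1 h1').1) (hOc γ ν2 (Finset.mem_filter.1 h2').1)
  -- exchange of the sums
  have hcount : qr F ^ (β + γ) * ∑ ν1 ∈ (Oc m β).filter (fun ν => ν ≠ 1),
      ∑ ν2 ∈ (Oc m γ).filter (fun ν => ν ≠ 1), bd ν1⁻¹ ν2⁻¹ ≤ tau m1 * qr F ^ (2 * μ) := by
    have h1 : ∑ ν1 ∈ (Oc m β).filter (fun ν => ν ≠ 1),
        ∑ ν2 ∈ (Oc m γ).filter (fun ν => ν ≠ 1), bd ν1⁻¹ ν2⁻¹ =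
        ∑ d ∈ Dv m1, Real.sqrt (qr F) ^ d.natDegree *
          (((((Oc m β).filter (fun ν => ν ≠ 1)).filter
            (fun ν => ν⁻¹ ∈ AC (m1 / d * m2))).card : ℝ) *
          ((((Oc m γ).filter (fun ν => ν ≠ 1)).filter
            (fun ν => ν⁻¹ ∈ AC (m1 / d * m2))).card : ℝ)) := by
      simp only [hbd]
      rw [Finset.sum_congr rfl (fun ν1 _ => Finset.sum_comm), Finset.sum_comm]
      refine Finset.sum_congr rfl fun d _ => ?_
      rw [Finset.card_filter, Finset.card_filter]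
      push_cast
      rw [Finset.sum_mul_sum, Finset.mul_sum]
      refine Finset.sum_congr rfl fun ν1 _ => ?_
      rw [Finset.mul_sum]
      refine Finset.sum_congr rfl fun ν2 _ => ?_
      by_cases ha : ν1⁻¹ ∈ AC (m1 / d * m2)
      · by_cases hb : ν2⁻¹ ∈ AC (m1 / d * m2)
        · rw [if_pos ⟨ha, hb⟩, if_pos ha, if_pos hb]
          ring
        · rw [if_neg (fun h => hb h.2), if_neg hb]
          ring
      · rw [if_neg (fun h => ha h.1), if_neg ha]
        ring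
    rw [h1, Finset.mul_sum]
    have h2 : ∀ d ∈ Dv m1, qr F ^ (β + γ) * (Real.sqrt (qr F) ^ d.natDegree *
          (((((Oc m β).filter (fun ν => ν ≠ 1)).filter
            (fun ν => ν⁻¹ ∈ AC (m1 / d * m2))).card : ℝ) *
          ((((Oc m γ).filter (fun ν => ν ≠ 1)).filter
            (fun ν => ν⁻¹ ∈ AC (m1 / d * m2))).card : ℝ))) ≤ qr F ^ (2 * μ) := by
      intro d hd
      rw [mem_Dv hm1.ne_zero] at hd
      have h3 : m1 = d * (m1 / d) := (EuclideanDomain.mul_div_cancel' hd.1.ne_zero hd.2).symm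
      have h4 : (m1 / d).Monic := by
        refine Polynomial.Monic.of_mul_monic_left hd.1 ?_
        rw [← h3]
        exact hm1
      have h5 : (m1 / d * m2).Monic := h4.mul hm2
      have h6 : d.natDegree + (m1 / d * m2).natDegree = μ := by
        rw [hμ, hmdef, hm1.natDegree_mul hm2, h4.natDegree_mul hm2]
        have h7 : m1.natDegree = d.natDegree + (m1 / d).natDegree := by
          conv_lhs => rw [h3]
          exact hd.1.natDegree_mul h4
        omega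
      have h7 := card_small hKC3 hACF m (m1 / d * m2) β h5
      have h8 := card_small hKC3 hACF m (m1 / d * m2) γ h5
      have h9 : Real.sqrt (qr F) ^ d.natDegree ≤ qr F ^ (2 * d.natDegree) := by
        have h10 : Real.sqrt (qr F) ≤ qr F ^ 2 := by
          have h11 : Real.sqrt (qr F) * Real.sqrt (qr F) = qr F := Real.mul_self_sqrt hq.le
          nlinarith [mul_le_mul_of_nonneg_left hs1 hs0.le]
        rw [pow_mul]
        exact pow_le_pow_left₀ hs0.le h10 _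
      calc qr F ^ (β + γ) * (Real.sqrt (qr F) ^ d.natDegree *
          (((((Oc m β).filter (fun ν => ν ≠ 1)).filter
            (fun ν => ν⁻¹ ∈ AC (m1 / d * m2))).card : ℝ) *
          ((((Oc m γ).filter (fun ν => ν ≠ 1)).filter
            (fun ν => ν⁻¹ ∈ AC (m1 / d * m2))).card : ℝ)))
          = Real.sqrt (qr F) ^ d.natDegree *
            ((((((Oc m β).filter (fun ν => ν ≠ 1)).filter
              (fun ν => ν⁻¹ ∈ AC (m1 / d * m2))).card : ℝ) * qr F ^ β) *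
            (((((Oc m γ).filter (fun ν => ν ≠ 1)).filter
              (fun ν => ν⁻¹ ∈ AC (m1 / d * m2))).card : ℝ) * qr F ^ γ)) := by
            rw [pow_add]
            ring
        _ ≤ qr F ^ (2 * d.natDegree) *
            (qr F ^ (m1 / d * m2).natDegree * qr F ^ (m1 / d * m2).natDegree) := by
            refine mul_le_mul h9 (mul_le_mul h7 h8 ?_ (pow_pos hq _).le) ?_ (pow_pos hq _).le
            · exact mul_nonneg (Nat.cast_nonneg _) (pow_pos hq _).le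
            · exact mul_nonneg (mul_nonneg (Nat.cast_nonneg _) (pow_pos hq _).le)
                (mul_nonneg (Nat.cast_nonneg _) (pow_pos hq _).le)
        _ = qr F ^ (2 * μ) := by
            rw [← pow_add, ← pow_add]
            congr 1
            omega
    refine (Finset.sum_le_card_nsmul _ _ _ h2).trans ?_
    rw [nsmul_eq_mul]
    rfl
  -- conclusion
  have hfin : qr F ^ (2 * μ) * |D| ≤ qr F ^ (2 * μ) * (2 * K * tau m1) := by
    have h1 : qr F ^ (2 * μ) * |D| = ‖(Fintype.card F : ℂ) ^ (2 * μ) * (D : ℂ)‖ := by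
      rw [norm_mul, norm_pow, Complex.norm_natCast, Complex.norm_real, Real.norm_eq_abs]
    rw [h1, hexp, norm_mul, norm_pow, Complex.norm_natCast]
    calc (Fintype.card F : ℝ) ^ (β + γ) *
          ‖∑ ν1 ∈ Oc m β, ∑ ν2 ∈ Oc m γ, ν1 (X ^ β) * ν2 (X ^ γ) * Brk m A t ν1⁻¹ ν2⁻¹‖
        ≤ qr F ^ (β + γ) * (2 * K * ∑ ν1 ∈ (Oc m β).filter (fun ν => ν ≠ 1),
            ∑ ν2 ∈ (Oc m γ).filter (fun ν => ν ≠ 1), bd ν1⁻¹ ν2⁻¹) := by
          refine mul_le_mul_of_nonneg_left hsum ?_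
          positivity
      _ = 2 * K * (qr F ^ (β + γ) * ∑ ν1 ∈ (Oc m β).filter (fun ν => ν ≠ 1),
            ∑ ν2 ∈ (Oc m γ).filter (fun ν => ν ≠ 1), bd ν1⁻¹ ν2⁻¹) := by ring
      _ ≤ 2 * K * (tau m1 * qr F ^ (2 * μ)) := by
          refine mul_le_mul_of_nonneg_left hcount ?_
          positivity
      _ = qr F ^ (2 * μ) * (2 * K * tau m1) := by ring
  have hfin2 : |D| ≤ 2 * K * tau m1 := le_of_mul_le_mul_left hfin (pow_pos hq _)
  refine hfin2.trans (le_of_eq ?_)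
  rw [hK]
  ring

end

end Pool.Agent.Helper78.EP
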