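import Pool.Agent.Helper68.EP.St4

/-!
# Project EP (MP_cb927e_an): module EBS (the bad sums)
-/

set_option autoImplicit false

open MeasureTheory Set Filter Topology
open scoped ENNReal RealInnerProductSpace

namespace Pool.Agent.Helper78.EP

open Pool.Agent.Helper68.EP
open Pool.Agent.Helper68.LM (Pl BB Bd Av HL ft fm DQ)
open Pool.Agent.Helper20.RG
open Pool.Agent.Helper20.RL (RQ Rich BM Fml)

lemma ebs_g_pos (P : Par) : 0 < P.g := by
  have h := P.hs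
  unfold Par.g
  linarith

lemma ebs_g_lt (P : Par) : P.g < 1 / 64 := by
  have h := P.hsp
  have h2 := P.hp
  unfold Par.g
  linarith

lemma ebs_cq_nonneg (P : Par) (u q : ℕ) (θ : ℝ) (hθ : 0 ≤ θ) : 0 ≤ cq P u q θ := by
  unfold cq et DD
  positivity

/-- one class `u`, general bound for the bad sum -/
lemma ebs_gen (P : Par) (Δ : Dat) (u₁ u : ℕ) (θ M : ℝ) (E : Set Pl) (A : ℕ → ℝ≥0∞) (c d : ℝ≥0∞)
    (X Y : ℕ → ℤ → Set Pl)
    (h : ∀ j : ℕ, j < 2 ^ u → ∀ k : ℤ, ∀ q ∈ Finset.Ico (q0 P u₁) (q1 P u₁),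
      volume (Bad P Δ u₁ q u j k θ E ∩ VM P Δ u j k θ M E) ≤
        A q * volume (VM P Δ u j k θ M E) + (c * volume (X j k) + d * volume (Y j k))) :
    SBu P Δ u₁ u θ M E ≤ (∑ q ∈ Finset.Ico (q0 P u₁) (q1 P u₁), A q) * SMu P Δ u θ M E +
      ((q1 P u₁ - q0 P u₁ : ℕ) : ℝ≥0∞) *
        (c * (wt P u * ∑ j ∈ Finset.range (2 ^ u), ∑' k : ℤ, volume (X j k)) +
          d * (wt P u * ∑ j ∈ Finset.range (2 ^ u), ∑' k : ℤ, volume (Y j k))) := by
  unfold SBu SMu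
  have h1 : ∀ j ∈ Finset.range (2 ^ u),
      ∑' k : ℤ, ∑ q ∈ Finset.Ico (q0 P u₁) (q1 P u₁),
        volume (Bad P Δ u₁ q u j k θ E ∩ VM P Δ u j k θ M E) ≤
      (∑ q ∈ Finset.Ico (q0 P u₁) (q1 P u₁), A q) * ∑' k : ℤ, volume (VM P Δ u j k θ M E) +
        ((q1 P u₁ - q0 P u₁ : ℕ) : ℝ≥0∞) * (c * ∑' k : ℤ, volume (X j k) +
          d * ∑' k : ℤ, volume (Y j k)) := by
    intro j hj
    rw [Finset.mem_range] at hj
    calc ∑' k : ℤ, ∑ q ∈ Finset.Ico (q0 P u₁) (q1 P u₁),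
          volume (Bad P Δ u₁ q u j k θ E ∩ VM P Δ u j k θ M E)
        ≤ ∑' k : ℤ, ((∑ q ∈ Finset.Ico (q0 P u₁) (q1 P u₁), A q) * volume (VM P Δ u j k θ M E) +
            ((q1 P u₁ - q0 P u₁ : ℕ) : ℝ≥0∞) * (c * volume (X j k) + d * volume (Y j k))) := by
          refine ENNReal.tsum_le_tsum fun k => ?_
          calc ∑ q ∈ Finset.Ico (q0 P u₁) (q1 P u₁),
                volume (Bad P Δ u₁ q u j k θ E ∩ VM P Δ u j k θ M E)
              ≤ ∑ q ∈ Finset.Ico (q0 P u₁) (q1 P u₁),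
                  (A q * volume (VM P Δ u j k θ M E) +
                    (c * volume (X j k) + d * volume (Y j k))) :=
                Finset.sum_le_sum fun q hq => h j hj k q hq
            _ = _ := by
                rw [Finset.sum_add_distrib, ← Finset.sum_mul, Finset.sum_const, Nat.card_Ico,
                  nsmul_eq_mul]
      _ = _ := by
          rw [ENNReal.tsum_add, ENNReal.tsum_mul_left, ENNReal.tsum_mul_left, ENNReal.tsum_add,
            ENNReal.tsum_mul_left, ENNReal.tsum_mul_left]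
  calc wt P u * ∑ j ∈ Finset.range (2 ^ u), ∑' k : ℤ, ∑ q ∈ Finset.Ico (q0 P u₁) (q1 P u₁),
        volume (Bad P Δ u₁ q u j k θ E ∩ VM P Δ u j k θ M E)
      ≤ wt P u * ∑ j ∈ Finset.range (2 ^ u),
        ((∑ q ∈ Finset.Ico (q0 P u₁) (q1 P u₁), A q) * ∑' k : ℤ, volume (VM P Δ u j k θ M E) +
        ((q1 P u₁ - q0 P u₁ : ℕ) : ℝ≥0∞) * (c * ∑' k : ℤ, volume (X j k) +
          d * ∑' k : ℤ, volume (Y j k))) :=
        mul_le_mul_right (Finset.sum_le_sum h1) _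
    _ = _ := by
        rw [Finset.sum_add_distrib, ← Finset.mul_sum, ← Finset.mul_sum, Finset.sum_add_distrib,
          ← Finset.mul_sum, ← Finset.mul_sum]
        ring

lemma ebs_rpow_pow (g : ℝ) (u n : ℕ) :
    (2 : ℝ) ^ (-((n : ℝ) * g * u)) = ((2 : ℝ) ^ (-(g * u))) ^ n := by
  rw [← Real.rpow_natCast, ← Real.rpow_mul (by norm_num)]
  congr 1
  ring

lemma ebs_arith1 (CA t θ K u : ℝ) (ht : 0 < t) (hθ : 0 < θ) :
    4 / θ * (u * (K / (t * θ / 8) * (CA * (θ / 64 * t ^ 3) / (θ / 64)))) =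
      32 * CA * u * K * (t ^ 2 / θ) / θ := by
  field_simp
  ring

lemma ebs_arith2 (t θ K u D r : ℝ) (ht : 0 < t) (hθ : 0 < θ) (htθ : t ≤ θ) (hK : 0 ≤ K) (hu : 0 ≤ u)
    (hD0 : 0 ≤ D) (hD : D ≤ r * t ^ 8) :
    4 / θ * (u * (60 * D / (t * θ) * (K / (θ / 64 * t ^ 3 * (t * θ) / 40)))) ≤
      614400 * u * K * r / θ := by
  have h1 : 4 / θ * (u * (60 * D / (t * θ) * (K / (θ / 64 * t ^ 3 * (t * θ) / 40)))) =
      614400 * u * K * (D / (t ^ 5 * θ ^ 3)) / θ := by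
    field_simp
    ring
  rw [h1]
  have h2 : D / (t ^ 5 * θ ^ 3) ≤ r := by
    rw [div_le_iff₀ (by positivity)]
    have h3 : t ^ 3 ≤ θ ^ 3 := pow_le_pow_left₀ ht.le htθ 3
    have hr : 0 ≤ r := by
      by_contra hr
      push Not at hr
      have : r * t ^ 8 < 0 := mul_neg_of_neg_of_pos hr (by positivity)
      linarith
    calc D ≤ r * t ^ 8 := hD
      _ = r * (t ^ 5 * t ^ 3) := by ring
      _ ≤ r * (t ^ 5 * θ ^ 3) := by gcongr
  gcongr

theorem hEBS (hEVF : StEVF) (hEPA : StEPA) (hEAT : StEAT) (hEPB : StEPB) (hEME : StEME)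
    (hEN1 : StEN1) (hEN2 : StEN2) : StEBS := by
  intro P
  obtain ⟨CA, hCA, hAt⟩ := hEAT
  obtain ⟨a₁, ha₁, hN1⟩ := hEN1 P
  obtain ⟨a₂, ha₂, hN2⟩ := hEN2 P
  have hg := ebs_g_pos P
  have hg2 := ebs_g_lt P
  obtain ⟨a₃, ha₃⟩ : ∃ n : ℕ, 12 / P.g ≤ n := exists_nat_ge _
  refine ⟨32 * CA + 614400, max a₁ (max a₂ a₃), by linarith, ?_⟩
  intro Δ U₀ U₁ u₁ θ M K E hSy hU₀ hU hU' hθ1 hθ2 hK hE hyp
  have hθ : 0 < θ := lt_of_lt_of_le (by positivity) hθ1
  have hA1 : a₁ ≤ U₀ := le_trans (le_max_left _ _) hU₀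
  have hA2 : a₂ ≤ U₀ := le_trans (le_trans (le_max_left _ _) (le_max_right _ _)) hU₀
  have hA3 : a₃ ≤ U₀ := le_trans (le_trans (le_max_right _ _) (le_max_right _ _)) hU₀
  -- the number t
  obtain ⟨t, ht_def⟩ : ∃ t : ℝ, t = (2 : ℝ) ^ (-(P.g * u₁)) := ⟨_, rfl⟩
  have ht : 0 < t := by rw [ht_def]; positivity
  have hUr : (U₀ : ℝ) ≤ u₁ := by exact_mod_cast hU
  have htθ : t ≤ θ := by
    refine le_trans ?_ hθ1
    rw [ht_def]
    refine Real.rpow_le_rpow_of_exponent_le (by norm_num) ?_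
    have := mul_le_mul_of_nonneg_left hUr hg.le
    linarith
  have ht4 : t ≤ 1 / 4096 := by
    have h1 : (12 : ℝ) ≤ P.g * u₁ := by
      have h2 : (a₃ : ℝ) ≤ u₁ := by exact_mod_cast hA3.trans hU
      have h3 : 12 / P.g ≤ u₁ := ha₃.trans h2
      rw [div_le_iff₀ hg] at h3
      linarith
    rw [ht_def]
    calc (2 : ℝ) ^ (-(P.g * u₁)) ≤ (2 : ℝ) ^ (-(12 : ℝ)) :=
          Real.rpow_le_rpow_of_exponent_le (by norm_num) (by linarith)
      _ = 1 / 4096 := by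
          rw [Real.rpow_neg (by norm_num)]
          have : (2 : ℝ) ^ (12 : ℝ) = 4096 := by
            rw [show (12 : ℝ) = ((12 : ℕ) : ℝ) by norm_num, Real.rpow_natCast]
            norm_num
          rw [this]
          norm_num
  have ht2 : (2 : ℝ) ^ (-(2 * P.g * u₁)) = t ^ 2 := by
    rw [ht_def, ← ebs_rpow_pow]
    norm_num
  have ht7 : (2 : ℝ) ^ (-(7 * P.g * u₁)) = t ^ 7 := by
    rw [ht_def, ← ebs_rpow_pow]
    norm_num
  have ht8 : (2 : ℝ) ^ (-(8 * P.g * u₁)) = t ^ 8 := by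
    rw [ht_def, ← ebs_rpow_pow]
    norm_num
  have ht30 : (2 : ℝ) ^ (-(30 * P.g * u₁)) = t ^ 30 := by
    rw [ht_def, ← ebs_rpow_pow]
    norm_num
  have hu1 : 1 ≤ u₁ := ha₁.trans (hA1.trans hU)
  have hu1r : (1 : ℝ) ≤ u₁ := by exact_mod_cast hu1
  have hDDr : DD P u₁ ≤ (2 : ℝ) ^ (-((u₁ : ℝ) / 2)) * t ^ 8 := by
    rw [← ht8, ← Real.rpow_add (by norm_num)]
    unfold DD
    refine Real.rpow_le_rpow_of_exponent_le (by norm_num) ?_
    have hs := P.hs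
    have e1 : (1 : ℝ) / 2 + 8 * P.g ≤ P.s := by
      unfold Par.g
      linarith
    have := mul_le_mul_of_nonneg_right e1 (by positivity : (0 : ℝ) ≤ u₁)
    linarith
  have hDD0 : 0 ≤ DD P u₁ := by unfold DD; positivity
  -- Ok
  have hOk : ∀ u : ℕ, U₀ ≤ u → Ok P u θ ∧ (q1 P u : ℝ) - q0 P u ≤ u := by
    intro u hu
    refine hN1 u θ (hA1.trans hu) (le_trans ?_ hθ1) hθ2
    refine Real.rpow_le_rpow_of_exponent_le (by norm_num) ?_
    have e1 : (U₀ : ℝ) ≤ u := by exact_mod_cast hu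
    have e2 : P.g * U₀ ≤ P.g * u := mul_le_mul_of_nonneg_left e1 hg.le
    have e3 : 0 ≤ P.g * u := by positivity
    linarith
  have hOk1 := hOk u₁ hU
  have hq : (((q1 P u₁ - q0 P u₁ : ℕ) : ℝ≥0∞)) ≤ ENNReal.ofReal u₁ := by
    rw [ENNReal.ofReal_natCast]
    have h1 : ((q1 P u₁ - q0 P u₁ : ℕ) : ℝ) ≤ (u₁ : ℝ) := by
      rw [Nat.cast_sub hOk1.1.qq.2.le]
      exact hOk1.2
    have h2 : q1 P u₁ - q0 P u₁ ≤ u₁ := by exact_mod_cast h1
    exact_mod_cast h2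
  have hN2' := hN2 u₁ θ (hA2.trans hU) hθ2
  have hVM : ∀ (u j : ℕ) (k : ℤ), Sub P Δ u j k θ E (VM P Δ u j k θ M E) := fun u j k =>
    (hEVF P Δ u j k θ E hE hθ).2.2.1 M
  -- classes u ≤ u₁
  have hlow : ∀ u ∈ Finset.Icc U₀ u₁, ENNReal.ofReal (4 / θ) * SBu P Δ u₁ u θ M E ≤
      ENNReal.ofReal (t ^ 30) * SMu P Δ u θ M E := by
    intro u hu
    rw [Finset.mem_Icc] at hu
    have h1 := ebs_gen P Δ u₁ u θ M E
      (fun q => ENNReal.ofReal ((2 ^ q1 P u₁ / 2 ^ (q - 4) + 1) * cq P u₁ q θ)) 0 0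
      (fun _ _ => ∅) (fun _ _ => ∅) (by
        intro j hj k q hq
        rw [Finset.mem_Ico] at hq
        have := hEPA P Δ u₁ q u j k θ E (VM P Δ u j k θ M E) hSy hOk1.1 (hOk u hu.1).1 hu.2 hq.1 hq.2
          hj hE (hVM u j k)
        simpa using this)
    have h2 : SBu P Δ u₁ u θ M E ≤ (∑ q ∈ Finset.Ico (q0 P u₁) (q1 P u₁),
        ENNReal.ofReal ((2 ^ q1 P u₁ / 2 ^ (q - 4) + 1) * cq P u₁ q θ)) * SMu P Δ u θ M E := by
      simpa using h1
    calc ENNReal.ofReal (4 / θ) * SBu P Δ u₁ u θ M E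
        ≤ ENNReal.ofReal (4 / θ) * ((∑ q ∈ Finset.Ico (q0 P u₁) (q1 P u₁),
            ENNReal.ofReal ((2 ^ q1 P u₁ / 2 ^ (q - 4) + 1) * cq P u₁ q θ)) *
              SMu P Δ u θ M E) := mul_le_mul_right h2 _
      _ = ENNReal.ofReal (4 / θ * ∑ q ∈ Finset.Ico (q0 P u₁) (q1 P u₁),
            (2 ^ q1 P u₁ / 2 ^ (q - 4) + 1) * cq P u₁ q θ) * SMu P Δ u θ M E := by
          rw [← ENNReal.ofReal_sum_of_nonneg, ENNReal.ofReal_mul (by positivity), mul_assoc]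
          intro q hq
          have := ebs_cq_nonneg P u₁ q θ hθ.le
          positivity
      _ ≤ ENNReal.ofReal (t ^ 30) * SMu P Δ u θ M E := by
          refine mul_le_mul_left (ENNReal.ofReal_le_ofReal ?_) _
          rw [← ht30]
          refine hN2'.1 (le_trans ?_ htθ)
          rw [ht8]
          have h01 : t ≤ 1 := by linarith
          calc t ^ 8 ≤ t ^ 1 := pow_le_pow_of_le_one ht.le h01 (by norm_num)
            _ = t := pow_one t
  -- classes u > u₁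
  have hhigh : ∀ u ∈ Finset.Ioc u₁ U₁, SBu P Δ u₁ u θ M E ≤
      ENNReal.ofReal u₁ * (ENNReal.ofReal (t * θ) * SMu P Δ u θ M E) +
      ENNReal.ofReal u₁ * (SVu P Δ u (t * θ / 8) (At E (θ / 64) (θ / 64 * t ^ 3)) +
        ENNReal.ofReal (60 * DD P u₁ / (t * θ)) *
          SVu P Δ u (θ / 64 * t ^ 3 * (t * θ) / 40) E) := by
    intro u hu
    rw [Finset.mem_Ioc] at hu
    have h1 := ebs_gen P Δ u₁ u θ M E
      (fun _ => ENNReal.ofReal (t * θ)) 1 (ENNReal.ofReal (60 * DD P u₁ / (t * θ)))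
      (fun j k => Vc P Δ u j k (t * θ / 8) (At E (θ / 64) (θ / 64 * t ^ 3)))
      (fun j k => Vc P Δ u j k (θ / 64 * t ^ 3 * (t * θ) / 40) E) (by
        intro j hj k q hq
        have hq' := hq
        rw [Finset.mem_Ico] at hq'
        have := hEPB P Δ u₁ q u j k θ (θ / 64 * t ^ 3) (t * θ) E (VM P Δ u j k θ M E) hSy hOk1.1
          (hOk u (hU.trans hu.1.le)).1 hu.1 hq'.1 hq'.2 hj hE (by positivity) (by positivity)
          (by
            have := hN2'.2 (by rw [← ht_def]; exact htθ) q hq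
            rwa [← ht_def] at this) (hVM u j k)
        rw [one_mul, ← add_assoc]
        exact this)
    refine h1.trans ?_
    rw [Finset.sum_const, Nat.card_Ico, nsmul_eq_mul, one_mul, mul_assoc]
    unfold SVu
    gcongr
  -- combine
  have hsplit : ∀ f : ℕ → ℝ≥0∞, ∑ u ∈ Finset.Icc U₀ U₁, f u =
      ∑ u ∈ Finset.Icc U₀ u₁, f u + ∑ u ∈ Finset.Ioc u₁ U₁, f u := by
    intro f
    rw [← Finset.sum_union]
    · congr 1
      ext u
      simp only [Finset.mem_union, Finset.mem_Icc, Finset.mem_Ioc]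
      omega
    · rw [Finset.disjoint_left]
      intro u h1 h2
      rw [Finset.mem_Icc] at h1
      rw [Finset.mem_Ioc] at h2
      omega
  have hpow5 : t ^ 5 ≤ 1 / 8 := by
    calc t ^ 5 ≤ t ^ 1 := pow_le_pow_of_le_one ht.le (by linarith) (by norm_num)
      _ = t := pow_one t
      _ ≤ 1 / 8 := by linarith
  have hθθ : t * θ ≤ 1 := by
    calc t * θ ≤ 1 * 1 := by
          refine mul_le_mul (by linarith) hθ2 hθ.le (by norm_num)
      _ = 1 := by norm_num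
  have ht3 : t ^ 3 ≤ 1 := pow_le_one₀ ht.le (by linarith)
  have hKA : ∑ u ∈ Finset.Ioc u₁ U₁, SVu P Δ u (t * θ / 8) (At E (θ / 64) (θ / 64 * t ^ 3)) ≤
      ENNReal.ofReal (K / (t * θ / 8) * (CA * (θ / 64 * t ^ 3) / (θ / 64))) * volume E := by
    have h1 := hyp (t * θ / 8) (At E (θ / 64) (θ / 64 * t ^ 3)) (by
        rw [ht7]
        calc t ^ 7 = t * t * t ^ 5 := by ring
          _ ≤ t * θ * (1 / 8) := by gcongr
          _ = t * θ / 8 := by ring) (by linarith) ((hEME P Δ θ E hE hθ).2.2.2.2 _ _)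
    have h2 := hAt E (θ / 64) (θ / 64 * t ^ 3) hE (by positivity) (by positivity)
    calc ∑ u ∈ Finset.Ioc u₁ U₁, SVu P Δ u (t * θ / 8) (At E (θ / 64) (θ / 64 * t ^ 3))
        ≤ ENNReal.ofReal (K / (t * θ / 8)) * volume (At E (θ / 64) (θ / 64 * t ^ 3)) := h1
      _ ≤ ENNReal.ofReal (K / (t * θ / 8)) *
            (ENNReal.ofReal (CA * (θ / 64 * t ^ 3) / (θ / 64)) * volume E) :=
          mul_le_mul_right h2 _
      _ = _ := by
          rw [← mul_assoc, ← ENNReal.ofReal_mul (by positivity)]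
  have hKE : ∑ u ∈ Finset.Ioc u₁ U₁, SVu P Δ u (θ / 64 * t ^ 3 * (t * θ) / 40) E ≤
      ENNReal.ofReal (K / (θ / 64 * t ^ 3 * (t * θ) / 40)) * volume E := by
    refine hyp _ E ?_ ?_ hE
    · rw [ht7]
      calc t ^ 7 = t ^ 4 * (t * t * t) := by ring
        _ ≤ t ^ 4 * (θ * θ * (1 / 2560)) := by
            have : t ≤ 1 / 2560 := by linarith
            gcongr
        _ = θ / 64 * t ^ 3 * (t * θ) / 40 := by ring
    · have h1 : θ / 64 * t ^ 3 * (t * θ) ≤ 1 / 64 * 1 * 1 := by gcongr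
      linarith
  have hfin := ebs_arith1 CA t θ K u₁ ht hθ
  have hfin2 := ebs_arith2 t θ K u₁ (DD P u₁) ((2 : ℝ) ^ (-((u₁ : ℝ) / 2))) ht hθ htθ hK
    (by positivity) hDD0 hDDr
  rw [hsplit, hsplit, mul_add, mul_add, Finset.mul_sum]
  have hL : ∑ u ∈ Finset.Icc U₀ u₁, ENNReal.ofReal (4 / θ) * SBu P Δ u₁ u θ M E ≤
      ENNReal.ofReal (5 * u₁ * (2 : ℝ) ^ (-(P.g * u₁))) * ∑ u ∈ Finset.Icc U₀ u₁,
        SMu P Δ u θ M E := by
    rw [← ht_def]
    calc ∑ u ∈ Finset.Icc U₀ u₁, ENNReal.ofReal (4 / θ) * SBu P Δ u₁ u θ M E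
        ≤ ∑ u ∈ Finset.Icc U₀ u₁, ENNReal.ofReal (t ^ 30) * SMu P Δ u θ M E :=
          Finset.sum_le_sum hlow
      _ = ENNReal.ofReal (t ^ 30) * ∑ u ∈ Finset.Icc U₀ u₁, SMu P Δ u θ M E := by
          rw [← Finset.mul_sum]
      _ ≤ _ := by
          refine mul_le_mul_left (ENNReal.ofReal_le_ofReal ?_) _
          calc t ^ 30 ≤ t ^ 1 := pow_le_pow_of_le_one ht.le (by linarith) (by norm_num)
            _ = 1 * 1 * t := by ring
            _ ≤ 5 * u₁ * t := by gcongr; norm_num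
  have hH : ENNReal.ofReal (4 / θ) * ∑ u ∈ Finset.Ioc u₁ U₁, SBu P Δ u₁ u θ M E ≤
      ENNReal.ofReal (5 * u₁ * (2 : ℝ) ^ (-(P.g * u₁))) * ∑ u ∈ Finset.Ioc u₁ U₁,
        SMu P Δ u θ M E +
      ENNReal.ofReal ((32 * CA + 614400) * u₁ * K * ((2 : ℝ) ^ (-(2 * P.g * u₁)) / θ +
        (2 : ℝ) ^ (-((u₁ : ℝ) / 2))) / θ) * volume E := by
    rw [← ht_def, ht2]
    calc ENNReal.ofReal (4 / θ) * ∑ u ∈ Finset.Ioc u₁ U₁, SBu P Δ u₁ u θ M E
        ≤ ENNReal.ofReal (4 / θ) * ∑ u ∈ Finset.Ioc u₁ U₁,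
          (ENNReal.ofReal u₁ * (ENNReal.ofReal (t * θ) * SMu P Δ u θ M E) +
          ENNReal.ofReal u₁ * (SVu P Δ u (t * θ / 8) (At E (θ / 64) (θ / 64 * t ^ 3)) +
            ENNReal.ofReal (60 * DD P u₁ / (t * θ)) *
              SVu P Δ u (θ / 64 * t ^ 3 * (t * θ) / 40) E)) :=
          mul_le_mul_right (Finset.sum_le_sum hhigh) _
      _ = ENNReal.ofReal (4 / θ) * (ENNReal.ofReal u₁ * (ENNReal.ofReal (t * θ) *
            ∑ u ∈ Finset.Ioc u₁ U₁, SMu P Δ u θ M E) +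
          ENNReal.ofReal u₁ * (∑ u ∈ Finset.Ioc u₁ U₁,
              SVu P Δ u (t * θ / 8) (At E (θ / 64) (θ / 64 * t ^ 3)) +
            ENNReal.ofReal (60 * DD P u₁ / (t * θ)) * ∑ u ∈ Finset.Ioc u₁ U₁,
              SVu P Δ u (θ / 64 * t ^ 3 * (t * θ) / 40) E)) := by
          simp only [Finset.sum_add_distrib, Finset.mul_sum, mul_add]
      _ ≤ ENNReal.ofReal (4 / θ) * (ENNReal.ofReal u₁ * (ENNReal.ofReal (t * θ) *
            ∑ u ∈ Finset.Ioc u₁ U₁, SMu P Δ u θ M E) +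
          ENNReal.ofReal u₁ * (ENNReal.ofReal (K / (t * θ / 8) *
              (CA * (θ / 64 * t ^ 3) / (θ / 64))) * volume E +
            ENNReal.ofReal (60 * DD P u₁ / (t * θ)) *
              (ENNReal.ofReal (K / (θ / 64 * t ^ 3 * (t * θ) / 40)) * volume E))) := by
          gcongr
      _ = ENNReal.ofReal (4 / θ * (u₁ * (t * θ))) * ∑ u ∈ Finset.Ioc u₁ U₁, SMu P Δ u θ M E +
          (ENNReal.ofReal (4 / θ * (u₁ * (K / (t * θ / 8) *
              (CA * (θ / 64 * t ^ 3) / (θ / 64))))) +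
            ENNReal.ofReal (4 / θ * (u₁ * (60 * DD P u₁ / (t * θ) *
              (K / (θ / 64 * t ^ 3 * (t * θ) / 40)))))) * volume E := by
          rw [ENNReal.ofReal_mul (p := 4 / θ) (by positivity),
            ENNReal.ofReal_mul (p := (u₁ : ℝ)) (q := t * θ) (by positivity),
            ENNReal.ofReal_mul (p := 4 / θ) (q := (u₁ : ℝ) * (K / (t * θ / 8) *
              (CA * (θ / 64 * t ^ 3) / (θ / 64)))) (by positivity),
            ENNReal.ofReal_mul (p := (u₁ : ℝ)) (q := (K / (t * θ / 8) *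
              (CA * (θ / 64 * t ^ 3) / (θ / 64)))) (by positivity),
            ENNReal.ofReal_mul (p := 4 / θ) (q := (u₁ : ℝ) * (60 * DD P u₁ / (t * θ) *
              (K / (θ / 64 * t ^ 3 * (t * θ) / 40)))) (by positivity),
            ENNReal.ofReal_mul (p := (u₁ : ℝ)) (q := (60 * DD P u₁ / (t * θ) *
              (K / (θ / 64 * t ^ 3 * (t * θ) / 40)))) (by positivity),
            ENNReal.ofReal_mul (p := 60 * DD P u₁ / (t * θ)) (by positivity)]
          ring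
      _ ≤ _ := by
          rw [← ENNReal.ofReal_add (by positivity) (by positivity)]
          refine add_le_add (mul_le_mul_left (ENNReal.ofReal_le_ofReal ?_) _)
            (mul_le_mul_left (ENNReal.ofReal_le_ofReal ?_) _)
          · have h1 : 4 / θ * (u₁ * (t * θ)) = 4 * u₁ * t := by
              field_simp
            rw [h1]
            have h2 : 0 ≤ u₁ * t := by positivity
            linarith
          · have hr : 0 < (2 : ℝ) ^ (-((u₁ : ℝ) / 2)) := by positivity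
            rw [hfin]
            have e1 : (32 * CA + 614400) * u₁ * K * (t ^ 2 / θ + (2 : ℝ) ^ (-((u₁ : ℝ) / 2))) / θ =
                32 * CA * u₁ * K * (t ^ 2 / θ) / θ + 614400 * u₁ * K *
                  (2 : ℝ) ^ (-((u₁ : ℝ) / 2)) / θ +
                (614400 * u₁ * K * (t ^ 2 / θ) / θ + 32 * CA * u₁ * K *
                  (2 : ℝ) ^ (-((u₁ : ℝ) / 2)) / θ) := by ring
            rw [e1]
            have e2 : 0 ≤ 614400 * u₁ * K * (t ^ 2 / θ) / θ + 32 * CA * u₁ * K *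
                  (2 : ℝ) ^ (-((u₁ : ℝ) / 2)) / θ := by positivity
            linarith
  calc ∑ u ∈ Finset.Icc U₀ u₁, ENNReal.ofReal (4 / θ) * SBu P Δ u₁ u θ M E +
        ENNReal.ofReal (4 / θ) * ∑ u ∈ Finset.Ioc u₁ U₁, SBu P Δ u₁ u θ M E
      ≤ _ := add_le_add hL hH
    _ = _ := by ring

end Pool.Agent.Helper78.EP
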