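import Pool.Agent.Helper68.EP.St3

/-!
# Project EP (MP_cb927e_an): module EPB (the pair bound for `u₁ < u₂`)
-/

set_option autoImplicit false

open MeasureTheory Set Filter Topology
open scoped ENNReal RealInnerProductSpace

namespace Pool.Agent.Helper78.EP

open Pool.Agent.Helper68.EP
open Pool.Agent.Helper68.LM (Pl BB Bd Av HL ft fm DQ)
open Pool.Agent.Helper20.RG
open Pool.Agent.Helper20.RL (RQ Rich BM Fml)

theorem hEPB (hEFB : StEFB) (hEVF : StEVF) (hECS : StECS) (hEME : StEME) (hEM1 : StEM1)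
    (hEM2 : StEM2) (hEM3 : StEM3) (hEM4 : StEM4) (hEM5 : StEM5)
    (hLGR : Pool.Agent.Helper20.RL.StLGR) : StEPB := by
  intro P Δ u₁ q u₂ j₂ k₂ θ θ' δ E V' hSy hOk1 hOk2 hu hq0 hq1 hj hE hδ hθ' hnum hSub
  have hθ : 0 < θ := hOk1.th.1
  obtain ⟨hLG1, -, -, -, -⟩ := hLGR
  obtain ⟨hV1, -, -, hV4⟩ := hEVF P Δ u₂ j₂ k₂ θ E hE hθ
  have hu2 : 1 ≤ u₂ := hOk2.u1
  have huq : 64 * u₂ ≤ 2 ^ q0 P u₂ := hOk2.uq
  have hF : BM (Fo P u₂ k₂ (q0 P u₂) E) := ((hEME P Δ θ E hE hθ).1 u₂ (q0 P u₂) k₂).1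
  have hAtm : BM (At E (θ / 64) θ') := (hEME P Δ θ E hE hθ).2.2.2.2 _ _
  have hBadFo : Bad P Δ u₁ q u₂ j₂ k₂ θ E ⊆ Fo P u₂ k₂ (q0 P u₂) E := fun z hz => hz.1.1
  -- the first part
  obtain ⟨V1, hV1def⟩ : ∃ V1 : Set Pl, V1 = {y | y ∈ V' ∧
      volume (Bad P Δ u₁ q u₂ j₂ k₂ θ E ∩ Qc P Δ u₂ j₂ k₂ θ E y) ≤
        ENNReal.ofReal δ * volume (Qc P Δ u₂ j₂ k₂ θ E y)} := ⟨_, rfl⟩
  have hSub1 : Sub P Δ u₂ j₂ k₂ θ E V1 := by
    refine ⟨fun y hy => ?_, fun y hy z hz => ?_⟩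
    · rw [hV1def] at hy
      exact hSub.1 hy.1
    · rw [hV1def] at hy ⊢
      have h1 := ((hV1 y (hSub.1 hy.1)).2.2.2 z hz).2.2
      refine ⟨hSub.2 y hy.1 hz, ?_⟩
      rw [h1]
      exact hy.2
  have hpart1 : volume (Bad P Δ u₁ q u₂ j₂ k₂ θ E ∩ V1) ≤ ENNReal.ofReal δ * volume V' := by
    have h1 := hECS _ _ _ V1 (Bad P Δ u₁ q u₂ j₂ k₂ θ E) Set.univ _ _ (ENNReal.ofReal δ)
      (hV4 V1 hSub1).1 (by
        intro z hz
        rw [Set.univ_inter]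
        rw [hV1def] at hz
        exact hz.2)
    rw [Set.univ_inter] at h1
    refine h1.trans (mul_le_mul_right (measure_mono ?_) _)
    intro y hy
    rw [hV1def] at hy
    exact hy.1
  -- the third part
  have hE5 := hEM5 P Δ u₁ u₂ j₂ k₂ θ (θ' * δ / 40) (δ / 2) E V' hSy hu2 (by omega) hj hE hθ
    (by positivity) (by positivity) hSub
  -- covering
  have hcov : V' ⊆ V1 ∪ (Vc P Δ u₂ j₂ k₂ (δ / 8) (At E (θ / 64) θ') ∪
      Cs P Δ u₁ u₂ j₂ k₂ θ (θ' * δ / 40) (δ / 2) E V') := by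
    intro y hy
    by_cases hy1 : volume (Bad P Δ u₁ q u₂ j₂ k₂ θ E ∩ Qc P Δ u₂ j₂ k₂ θ E y) ≤
        ENNReal.ofReal δ * volume (Qc P Δ u₂ j₂ k₂ θ E y)
    · left
      rw [hV1def]
      exact ⟨hy, hy1⟩
    right
    push Not at hy1
    have hyV : y ∈ Vc P Δ u₂ j₂ k₂ θ E := hSub.1 hy
    obtain ⟨-, -, hyQ, -⟩ := hV1 y hyV
    obtain ⟨W, hW1, hW2, hW3, hW4⟩ := hEM1 P Δ u₁ q u₂ j₂ k₂ θ δ E y hSy hOk1 hOk2 hu hq0 hq1 hj hE
      hδ hnum hyV hy1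
    obtain ⟨H, hH⟩ : ∃ H : Set Pl, H = (Bad P Δ u₁ q u₂ j₂ k₂ θ E ∩ Qc P Δ u₂ j₂ k₂ θ E y) \
          Fb E (DD P u₁) (W + 2 ^ q1 P u₁) := ⟨_, rfl⟩
    rw [← hH] at hW4
    by_cases hy2 : ENNReal.ofReal (δ / 8) * volume (Qc P Δ u₂ j₂ k₂ θ E y) ≤
        volume (H ∩ At E (θ / 64) θ')
    · left
      refine hEM4 P Δ u₂ j₂ k₂ θ (δ / 8) E (At E (θ / 64) θ') y hE hθ (by positivity)
        (fun z hz => hz.1) hyV (hy2.trans (measure_mono ?_)) hyQ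
      rintro z ⟨hz1, hz2⟩
      rw [hH] at hz1
      exact ⟨⟨hz2, hBadFo hz1.1.1⟩, hz1.1.2⟩
    · right
      push Not at hy2
      have hvol : volume (Qc P Δ u₂ j₂ k₂ θ E y) =
          ENNReal.ofReal ((2 : ℝ) ^ (k₂ - (u₂ : ℤ) + Bc P Δ u₂ j₂ k₂ θ E y)) :=
        (hLG1 (Δ.sl u₂ j₂) (k₂ - (u₂ : ℤ)) (Bc P Δ u₂ j₂ k₂ θ E y) y).2.1
      have hY : ENNReal.ofReal (δ / 8) * volume (Qc P Δ u₂ j₂ k₂ θ E y) ≤
          volume (H \ At E (θ / 64) θ') := by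
        by_contra hcon
        push Not at hcon
        have h1 : volume H ≤ volume (H ∩ At E (θ / 64) θ') + volume (H \ At E (θ / 64) θ') :=
          measure_le_inter_add_sdiff _ _ _
        have h2 : volume (H ∩ At E (θ / 64) θ') + volume (H \ At E (θ / 64) θ') <
            ENNReal.ofReal (δ / 8) * volume (Qc P Δ u₂ j₂ k₂ θ E y) +
              ENNReal.ofReal (δ / 8) * volume (Qc P Δ u₂ j₂ k₂ θ E y) :=
          ENNReal.add_lt_add hy2 hcon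
        rw [← add_mul, ← ENNReal.ofReal_add (by positivity) (by positivity),
          show δ / 8 + δ / 8 = δ / 4 by ring] at h2
        exact absurd (hW4.trans h1) (not_le.mpr h2)
      have hWa : W ≤ k₂ - (u₂ : ℤ) := by
        have h1 : (u₂ : ℤ) ≤ 2 ^ q0 P u₂ := by
          have : u₂ ≤ 2 ^ q0 P u₂ := by omega
          exact_mod_cast this
        linarith
      obtain ⟨i, hi, hR⟩ := hEM3 (Δ.sl u₂ j₂) (k₂ - (u₂ : ℤ)) (Bc P Δ u₂ j₂ k₂ θ E y) W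
        (Fo P u₂ k₂ (q0 P u₂) E) (H \ At E (θ / 64) θ') θ' (δ / 8) y (hSy.slope u₂ j₂ hu2 hj) hF
        hW1 hWa hθ' (by positivity)
        (by
          rintro z ⟨hz1, -⟩
          rw [hH] at hz1
          exact hz1.1.2)
        (by
          rintro z ⟨hz1, hz2⟩
          rw [hH] at hz1
          refine (hEM2 P Δ u₁ q u₂ j₂ k₂ W θ θ' E z hSy hOk1 hE hq0 hq1 hz1.1.1 hz1.2 hz2).trans ?_
          refine measure_mono ?_
          have h3 := hEFB.2.2.2.1 E (DD P u₂) (k₂ - 2 ^ q0 P u₂) W z hW2 (hBadFo hz1.1.1)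
          rintro x ⟨hx1, hx2⟩
          exact ⟨h3 ⟨hx1, hx2⟩, hx2⟩)
        (by
          rw [ENNReal.ofReal_mul (by positivity), ← hvol]
          exact hY)
      refine ⟨hy, W, i, hW1, hW2, hi, ?_, hW3⟩
      have e : θ' * (δ / 8) / 5 = θ' * δ / 40 := by ring
      rw [e] at hR
      exact hR
  -- conclusion
  calc volume (Bad P Δ u₁ q u₂ j₂ k₂ θ E ∩ V')
      ≤ volume ((Bad P Δ u₁ q u₂ j₂ k₂ θ E ∩ V1) ∪
          (Vc P Δ u₂ j₂ k₂ (δ / 8) (At E (θ / 64) θ') ∪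
            Cs P Δ u₁ u₂ j₂ k₂ θ (θ' * δ / 40) (δ / 2) E V')) := by
        refine measure_mono ?_
        rintro z ⟨hz1, hz2⟩
        rcases hcov hz2 with h | h
        · exact Or.inl ⟨hz1, h⟩
        · exact Or.inr h
    _ ≤ volume (Bad P Δ u₁ q u₂ j₂ k₂ θ E ∩ V1) +
          (volume (Vc P Δ u₂ j₂ k₂ (δ / 8) (At E (θ / 64) θ')) +
            volume (Cs P Δ u₁ u₂ j₂ k₂ θ (θ' * δ / 40) (δ / 2) E V')) :=
        (measure_union_le _ _).trans (by gcongr; exact measure_union_le _ _)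
    _ ≤ ENNReal.ofReal δ * volume V' + (volume (Vc P Δ u₂ j₂ k₂ (δ / 8) (At E (θ / 64) θ')) +
          ENNReal.ofReal (60 * DD P u₁ / δ) * volume (Vc P Δ u₂ j₂ k₂ (θ' * δ / 40) E)) := by
        have e : 30 * DD P u₁ / (δ / 2) = 60 * DD P u₁ / δ := by
          field_simp
          ring
        have h5 := hE5.2
        rw [e] at h5
        gcongr
    _ = _ := by rw [add_assoc]

end Pool.Agent.Helper78.EP
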