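import Pool.Agent.Helper68.EP.St5

/-!
# Project EP (MP_cb927e_an): module XHI (the high part)
-/

set_option autoImplicit false

open MeasureTheory Set Filter Topology
open scoped ENNReal RealInnerProductSpace

namespace Pool.Agent.Helper78.EP

open Pool.Agent.Helper68.EP
open Pool.Agent.Helper68.LM (Pl BB Bd Av HL ft fm DQ)
open Pool.Agent.Helper20.RG
open Pool.Agent.Helper20.RL (RQ Rich BM Fml Hit)

lemma xhi_BM_Gf (f : Pl → ℝ) (hf : BB f) (m : ℤ) : BM (Gf f m) := by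
  obtain ⟨hm, K, hK1, hK2⟩ := hf
  refine ⟨?_, ?_⟩
  · exact (measurableSet_le measurable_const hm).inter (measurableSet_lt hm measurable_const)
  · refine (Metric.isBounded_closedBall (x := (0 : Pl)) (r := K)).subset ?_
    intro x hx
    rw [Metric.mem_closedBall, dist_zero_right]
    by_contra h
    push Not at h
    have h1 := hK2 x h
    have h2 := hx.1
    rw [h1] at h2
    have h3 : (0 : ℝ) < (2 : ℝ) ^ m := by positivity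
    linarith

lemma xhi_BB_ind (F : Set Pl) (hF : BM F) : BB (F.indicator (1 : Pl → ℝ)) := by
  obtain ⟨R, hR⟩ := hF.2.subset_closedBall (0 : Pl)
  refine ⟨measurable_one.indicator hF.1, max R 1, ?_, ?_⟩
  · intro x
    by_cases hx : x ∈ F
    · rw [Set.indicator_of_mem hx]
      simp
    · rw [Set.indicator_of_notMem hx]
      simp
  · intro x hx
    rw [Set.indicator_of_notMem]
    intro hxF
    have h1 := hR hxF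
    rw [Metric.mem_closedBall, dist_zero_right] at h1
    have h2 := le_max_left R 1
    linarith

lemma xhi_Y_unit (hYB : Pool.Agent.Helper20.RG.StYB) (s : ℝ) (c : Pl) (m u : ℕ) (k : ℤ) (F : Set Pl)
    (hs : |s| ≤ 1) (hF : BM F) (x : Pl) :
    0 ≤ Y s c m (1 / (2 : ℝ) ^ u) k (F.indicator 1) x ∧
      Y s c m (1 / (2 : ℝ) ^ u) k (F.indicator 1) x ≤ 1 := by
  obtain ⟨-, -, h0, h1, -⟩ := hYB s c m (1 / (2 : ℝ) ^ u) k (F.indicator 1) hs (by positivity)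
    (xhi_BB_ind F hF)
  refine ⟨h0 (fun y => ?_) x, h1 1 (fun y => ?_) x⟩
  · exact Set.indicator_nonneg (fun _ _ => zero_le_one) y
  · by_cases hy : y ∈ F
    · rw [Set.indicator_of_mem hy]
      simp
    · rw [Set.indicator_of_notMem hy]
      exact zero_le_one

lemma xhi_g_pos (P : Par) : 0 < P.g := by
  have h := P.hs
  unfold Par.g
  linarith

/-- the index set -/
def xhiS (U₀ U₁ : ℕ) : Finset (ℕ × ℕ) :=
  (Finset.Icc U₀ U₁ ×ˢ Finset.range (2 ^ U₁)).filter (fun h => h.2 < 2 ^ h.1)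

lemma xhi_mem_S (U₀ U₁ : ℕ) (h : ℕ × ℕ) : h ∈ xhiS U₀ U₁ ↔ U₀ ≤ h.1 ∧ h.1 ≤ U₁ ∧ h.2 < 2 ^ h.1 := by
  unfold xhiS
  rw [Finset.mem_filter, Finset.mem_product, Finset.mem_Icc, Finset.mem_range]
  constructor
  · rintro ⟨⟨⟨h1, h2⟩, -⟩, h4⟩
    exact ⟨h1, h2, h4⟩
  · rintro ⟨h1, h2, h3⟩
    exact ⟨⟨⟨h1, h2⟩, lt_of_lt_of_le h3 (Nat.pow_le_pow_right (by norm_num) h2)⟩, h3⟩

lemma xhi_sum_S (U₀ U₁ : ℕ) (t : ℕ × ℕ → ℝ) :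
    ∑ h ∈ xhiS U₀ U₁, t h = ∑ u ∈ Finset.Icc U₀ U₁, ∑ j ∈ Finset.range (2 ^ u), t (u, j) := by
  unfold xhiS
  rw [Finset.sum_filter, Finset.sum_product]
  refine Finset.sum_congr rfl fun u hu => ?_
  rw [Finset.mem_Icc] at hu
  rw [← Finset.sum_filter]
  refine Finset.sum_congr ?_ fun _ _ => rfl
  ext j
  rw [Finset.mem_filter, Finset.mem_range, Finset.mem_range]
  constructor
  · exact fun h => h.2
  · exact fun h => ⟨lt_of_lt_of_le h (Nat.pow_le_pow_right (by norm_num) hu.2), h⟩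

/-- the number `U_i` -/
noncomputable def xhiU (P : Par) (U₀ i : ℕ) : ℕ := max U₀ ⌈2 * ((i : ℝ) + 6) / P.g⌉₊

lemma xhi_U_le (P : Par) (U₀ i u : ℕ) (h18 : 18 / P.g ≤ U₀) (hu : U₀ ≤ u)
    (hi : (i : ℝ) - 1 ≤ P.g / 8 * u) : xhiU P U₀ i ≤ u := by
  have hg := xhi_g_pos P
  refine max_le hu ?_
  rw [Nat.ceil_le]
  have hur : (U₀ : ℝ) ≤ u := by exact_mod_cast hu
  rw [div_le_iff₀ hg] at h18 ⊢
  rcases le_or_gt i 3 with h | h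
  · have h1 : (i : ℝ) ≤ 3 := by exact_mod_cast h
    have h2 : (U₀ : ℝ) * P.g ≤ u * P.g := mul_le_mul_of_nonneg_right hur hg.le
    linarith
  · have h1 : (4 : ℝ) ≤ i := by exact_mod_cast h
    linarith

lemma xhi_U_ge (P : Par) (U₀ i : ℕ) : 2 * ((i : ℝ) + 6) ≤ P.g * xhiU P U₀ i := by
  have hg := xhi_g_pos P
  have h1 : 2 * ((i : ℝ) + 6) / P.g ≤ (⌈2 * ((i : ℝ) + 6) / P.g⌉₊ : ℝ) := Nat.le_ceil _
  have h2 : (⌈2 * ((i : ℝ) + 6) / P.g⌉₊ : ℝ) ≤ (xhiU P U₀ i : ℝ) :=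
    Nat.cast_le.mpr (le_max_right _ _)
  have h3 := h1.trans h2
  rw [div_le_iff₀ hg] at h3
  linarith

lemma xhi_zr (i : ℕ) (a : ℤ) : (2 : ℝ) ^ (-((i : ℤ) + a)) = (2 : ℝ) ^ (-((i : ℝ) + a)) := by
  rw [← Real.rpow_intCast]
  push_cast
  rfl

/-- the pointwise statement -/
lemma xhi_point (hYB : Pool.Agent.Helper20.RG.StYB) (hEN1 : StEN1) (hXP : StXP) (hXH : StXH)
    (hEFB : StEFB) (P : Par) (c e₁ : ℝ) (hc : 0 < c) (he : 0 < e₁) :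
    ∃ u₀ : ℕ, 1 ≤ u₀ ∧ ∀ (Δ : Dat) (ct : ℕ → ℕ → Pl) (U₀ U₁ : ℕ) (f : Pl → ℝ) (k l : ℤ) (x : Pl),
      Sy P Δ → u₀ ≤ U₀ → BB f →
      c ≤ ∑ u ∈ Finset.Icc U₀ U₁, ∑ j ∈ Finset.range (2 ^ u),
        tt P Δ ct (P.g / 8) u j k (Gf f (l + (u : ℤ))) x →
      ∃ i : ℕ, c * (1 - (2 : ℝ) ^ (-e₁)) * (2 : ℝ) ^ ((1 - e₁) * i) ≤
        ((Ht P Δ ct (xhiU P U₀ i) U₁ k ((2 : ℝ) ^ (-((i : ℤ) + 6)))
          (fun u => Gf f (l + (u : ℤ))) x).ncard : ℝ) := by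
  obtain ⟨a₁, ha₁, hN1⟩ := hEN1 P
  have hg := xhi_g_pos P
  obtain ⟨a₂, ha₂⟩ : ∃ n : ℕ, 18 / P.g ≤ n := exists_nat_ge _
  refine ⟨max a₁ a₂, ha₁.trans (le_max_left _ _), ?_⟩
  intro Δ ct U₀ U₁ f k l x hSy hU₀ hf hsum
  have hA1 : a₁ ≤ U₀ := (le_max_left _ _).trans hU₀
  have hA2 : a₂ ≤ U₀ := (le_max_right _ _).trans hU₀
  have h18 : 18 / P.g ≤ U₀ := ha₂.trans (by exact_mod_cast hA2)
  have hFo : ∀ (u : ℕ), BM (Fo P u k (q0 P u) (Gf f (l + (u : ℤ)))) := fun u =>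
    (hEFB.1 _ _ _).2.2 (xhi_BM_Gf f hf _)
  obtain ⟨t, ht⟩ : ∃ t : ℕ × ℕ → ℝ, t = fun h => tt P Δ ct (P.g / 8) h.1 h.2 k (Gf f (l + (h.1 : ℤ))) x :=
    ⟨_, rfl⟩
  have htu : ∀ h ∈ xhiS U₀ U₁, 0 ≤ t h ∧ t h ≤ 1 := by
    intro h hh
    rw [xhi_mem_S] at hh
    have h1 : 1 ≤ h.1 := ha₁.trans (hA1.trans hh.1)
    have h2 := xhi_Y_unit hYB (Δ.sl h.1 h.2) (ct h.1 h.2) (Δ.fl h.1 h.2) h.1 k
      (Fo P h.1 k (q0 P h.1) (Gf f (l + (h.1 : ℤ)))) (hSy.slope h.1 h.2 h1 hh.2.2) (hFo h.1) x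
    rw [ht]
    simp only [tt]
    split_ifs
    · exact h2
    · exact ⟨le_rfl, zero_le_one⟩
  have hs : c ≤ ∑ h ∈ xhiS U₀ U₁, t h := by
    rw [xhi_sum_S, ht]
    exact hsum
  obtain ⟨i, hi⟩ := hXP (xhiS U₀ U₁) t c e₁ hc he htu hs
  refine ⟨i, hi.trans ?_⟩
  have hfin : (Ht P Δ ct (xhiU P U₀ i) U₁ k ((2 : ℝ) ^ (-((i : ℤ) + 6)))
          (fun u => Gf f (l + (u : ℤ))) x).Finite := by
    refine (Finset.finite_toSet (xhiS 0 U₁)).subset ?_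
    intro h hh
    rw [Finset.mem_coe, xhi_mem_S]
    exact ⟨Nat.zero_le _, hh.2.1, hh.2.2.1⟩
  rw [← Set.ncard_coe_finset]
  refine Nat.cast_le.mpr (Set.ncard_le_ncard ?_ hfin)
  intro h hh
  rw [Finset.mem_coe, Finset.mem_filter, xhi_mem_S] at hh
  obtain ⟨⟨hh1, hh2, hh3⟩, hh4, hh5⟩ := hh
  rw [ht] at hh4 hh5
  simp only [tt] at hh4 hh5
  have hpos : (0 : ℝ) < (2 : ℝ) ^ (-((i : ℤ) + 1)) := by positivity
  split_ifs at hh4 hh5 with hcond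
  swap
  · exact absurd hh4 (not_lt.mpr hpos.le)
  have hui : (i : ℝ) - 1 ≤ P.g / 8 * h.1 := by
    have h1 := hcond.trans hh5
    have h2 : (2 : ℝ) ^ (-(P.g / 8 * (h.1 : ℝ))) / 2 = (2 : ℝ) ^ (-(P.g / 8 * (h.1 : ℝ)) - 1) := by
      rw [Real.rpow_sub_one (by norm_num)]
    have h3 : (2 : ℝ) ^ (-(i : ℤ)) = (2 : ℝ) ^ (-(i : ℝ)) := by
      rw [← Real.rpow_intCast]
      push_cast
      rfl
    rw [h2, h3, Real.rpow_le_rpow_left_iff (by norm_num)] at h1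
    linarith
  have hUu := xhi_U_le P U₀ i h.1 h18 hh1 hui
  have hUg := xhi_U_ge P U₀ i
  have hOk : Ok P h.1 ((2 : ℝ) ^ (-((i : ℤ) + 6))) := by
    refine (hN1 h.1 _ (hA1.trans hh1) ?_ ?_).1
    · have e := xhi_zr i 6
      push_cast at e
      rw [e]
      refine Real.rpow_le_rpow_of_exponent_le (by norm_num) ?_
      have h1 : (xhiU P U₀ i : ℝ) ≤ h.1 := by exact_mod_cast hUu
      have h2 : P.g * xhiU P U₀ i ≤ P.g * h.1 := mul_le_mul_of_nonneg_left h1 hg.le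
      have h3 : (0 : ℝ) ≤ i := by positivity
      linarith
    · exact zpow_le_one_of_nonpos₀ (by norm_num) (by omega)
  exact ⟨hUu, hh2, hh3, hXH P Δ ct h.1 h.2 i k (Gf f (l + (h.1 : ℤ))) x hSy hOk hh3
    (xhi_BM_Gf f hf _) hh4.le⟩

lemma xhi_i0 (c₂ : ℝ) (hc : 0 < c₂) : ∃ i₀ : ℕ, ∀ i : ℕ, i₀ ≤ i → 8 / c₂ ≤ (2 : ℝ) ^ (3 / 8 * (i : ℝ)) := by
  have h1 : (1 : ℝ) < (2 : ℝ) ^ ((3 : ℝ) / 8) := Real.one_lt_rpow (by norm_num) (by norm_num)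
  obtain ⟨n, hn⟩ := pow_unbounded_of_one_lt (8 / c₂) h1
  refine ⟨n, fun i hi => ?_⟩
  have h2 : (2 : ℝ) ^ (3 / 8 * (i : ℝ)) = ((2 : ℝ) ^ ((3 : ℝ) / 8)) ^ i := by
    rw [← Real.rpow_natCast, ← Real.rpow_mul (by norm_num)]
  rw [h2]
  exact hn.le.trans (pow_le_pow_right₀ h1.le hi)

/-- the condition on `M` and `L` -/
lemma xhi_ML (c₂ e₁ : ℝ) (i : ℕ) (hc : 0 < c₂) (he : e₁ ≤ 1 / 8)
    (hi : 8 / c₂ ≤ (2 : ℝ) ^ (3 / 8 * (i : ℝ))) :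
    (((i / 4 : ℕ) : ℝ) + 1) * ((2 : ℝ) ^ (i / 4) + 1) ≤ c₂ * (2 : ℝ) ^ ((1 - e₁) * i) / 4 := by
  have h1 : (((i / 4 : ℕ) : ℝ) + 1) ≤ (2 : ℝ) ^ (i / 4) := by
    have : i / 4 < 2 ^ (i / 4) := Nat.lt_two_pow_self
    exact_mod_cast this
  have h2 : (1 : ℝ) ≤ (2 : ℝ) ^ (i / 4) := one_le_pow₀ (by norm_num)
  have h3 : (2 : ℝ) ^ (i / 4) ≤ (2 : ℝ) ^ ((i : ℝ) / 4) := by
    rw [← Real.rpow_natCast]
    refine Real.rpow_le_rpow_of_exponent_le (by norm_num) ?_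
    exact_mod_cast Nat.cast_div_le
  have h4 : (2 : ℝ) ^ ((i : ℝ) / 4) * (2 : ℝ) ^ ((i : ℝ) / 4) * (2 : ℝ) ^ (3 / 8 * (i : ℝ)) ≤
      (2 : ℝ) ^ ((1 - e₁) * i) := by
    rw [← Real.rpow_add (by norm_num), ← Real.rpow_add (by norm_num)]
    refine Real.rpow_le_rpow_of_exponent_le (by norm_num) ?_
    have h5 : (0 : ℝ) ≤ i := by positivity
    nlinarith
  have h6 : 0 < (2 : ℝ) ^ ((i : ℝ) / 4) := by positivity
  rw [div_le_iff₀ hc] at hi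
  calc (((i / 4 : ℕ) : ℝ) + 1) * ((2 : ℝ) ^ (i / 4) + 1)
      ≤ (2 : ℝ) ^ (i / 4) * ((2 : ℝ) ^ (i / 4) + (2 : ℝ) ^ (i / 4)) := by gcongr
    _ = 2 * ((2 : ℝ) ^ (i / 4) * (2 : ℝ) ^ (i / 4)) := by ring
    _ ≤ 2 * ((2 : ℝ) ^ ((i : ℝ) / 4) * (2 : ℝ) ^ ((i : ℝ) / 4)) := by gcongr
    _ = 8 * ((2 : ℝ) ^ ((i : ℝ) / 4) * (2 : ℝ) ^ ((i : ℝ) / 4)) / 4 := by ring
    _ ≤ ((2 : ℝ) ^ (3 / 8 * (i : ℝ)) * c₂) *
          ((2 : ℝ) ^ ((i : ℝ) / 4) * (2 : ℝ) ^ ((i : ℝ) / 4)) / 4 := by gcongr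
    _ = c₂ * ((2 : ℝ) ^ ((i : ℝ) / 4) * (2 : ℝ) ^ ((i : ℝ) / 4) * (2 : ℝ) ^ (3 / 8 * (i : ℝ))) / 4 := by
        ring
    _ ≤ c₂ * (2 : ℝ) ^ ((1 - e₁) * i) / 4 := by gcongr

/-- the choice of `M` -/
noncomputable def xhiM (i₀ i : ℕ) : ℝ := if i₀ ≤ i then (2 : ℝ) ^ (i / 4) else 0

lemma xhi_M_pow (p : ℝ) (i₀ i : ℕ) (hp : 1 < p) :
    (max 1 (xhiM i₀ i)) ^ (1 - p) ≤
      (2 : ℝ) ^ ((p - 1) * ((i₀ : ℝ) / 4 + 1)) * (2 : ℝ) ^ (-((p - 1) * ((i : ℝ) / 4))) := by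
  rw [← Real.rpow_add (by norm_num)]
  unfold xhiM
  split_ifs with h
  · have h2 : (1 : ℝ) ≤ (2 : ℝ) ^ (i / 4) := one_le_pow₀ (by norm_num)
    rw [max_eq_right h2, ← Real.rpow_natCast, ← Real.rpow_mul (by norm_num)]
    refine Real.rpow_le_rpow_of_exponent_le (by norm_num) ?_
    have h3 : (i : ℝ) / 4 - 1 ≤ ((i / 4 : ℕ) : ℝ) := by
      have h4 : i ≤ 4 * (i / 4) + 4 := by omega
      have h5 : (i : ℝ) ≤ 4 * ((i / 4 : ℕ) : ℝ) + 4 := by exact_mod_cast h4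
      linarith
    have h6 : (0 : ℝ) ≤ i₀ := by positivity
    nlinarith [mul_le_mul_of_nonneg_left h3 (by linarith : (0 : ℝ) ≤ p - 1),
      mul_nonneg (by linarith : (0 : ℝ) ≤ p - 1) h6]
  · rw [max_eq_left (by norm_num : (0 : ℝ) ≤ 1), Real.one_rpow]
    refine Real.one_le_rpow (by norm_num) ?_
    push Not at h
    have h3 : (i : ℝ) ≤ i₀ := by exact_mod_cast h.le
    nlinarith [mul_le_mul_of_nonneg_left h3 (by linarith : (0 : ℝ) ≤ p - 1)]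

/-- the `i`-th coefficient -/
lemma xhi_coef (P : Par) (CS c₂ : ℝ) (U₀ i₀ i : ℕ) (hCS : 0 < CS) (hc : 0 < c₂) :
    CS / (c₂ * (2 : ℝ) ^ ((1 - (P.p - 1) / 8) * i) * (2 : ℝ) ^ (-((i : ℤ) + 6))) *
        ((max 1 (xhiM i₀ i)) ^ (1 - P.p) + (2 : ℝ) ^ (-(P.g * xhiU P U₀ i))) ≤
      64 * CS / c₂ * ((2 : ℝ) ^ ((P.p - 1) * ((i₀ : ℝ) / 4 + 1)) + 1) *
        ((2 : ℝ) ^ (-((P.p - 1) / 8))) ^ i := by
  have hp1 : 1 < P.p := P.hs.trans P.hsp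
  have hp2 := P.hp
  have h1 := xhi_M_pow P.p i₀ i hp1
  have h2 : (2 : ℝ) ^ (-(P.g * xhiU P U₀ i)) ≤ (2 : ℝ) ^ (-((P.p - 1) * ((i : ℝ) / 4))) := by
    refine Real.rpow_le_rpow_of_exponent_le (by norm_num) ?_
    have h3 := xhi_U_ge P U₀ i
    have h4 : (0 : ℝ) ≤ i := by positivity
    nlinarith
  have e : (2 : ℝ) ^ (-((i : ℤ) + 6)) = (2 : ℝ) ^ (-((i : ℝ) + 6)) := by
    have := xhi_zr i 6
    push_cast at this
    exact this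
  have h5 : CS / (c₂ * (2 : ℝ) ^ ((1 - (P.p - 1) / 8) * i) * (2 : ℝ) ^ (-((i : ℤ) + 6))) =
      64 * CS / c₂ * (2 : ℝ) ^ ((P.p - 1) / 8 * i) := by
    rw [e, mul_assoc, ← Real.rpow_add (by norm_num)]
    have e2 : (1 - (P.p - 1) / 8) * (i : ℝ) + -((i : ℝ) + 6) = -((P.p - 1) / 8 * i) - 6 := by ring
    have e3 : (2 : ℝ) ^ (-((P.p - 1) / 8 * (i : ℝ)) - 6) = ((2 : ℝ) ^ ((P.p - 1) / 8 * (i : ℝ)))⁻¹ / 64 := by
      rw [Real.rpow_sub (by norm_num), Real.rpow_neg (by norm_num)]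
      have : (2 : ℝ) ^ (6 : ℝ) = 64 := by
        rw [show (6 : ℝ) = ((6 : ℕ) : ℝ) by norm_num, Real.rpow_natCast]
        norm_num
      rw [this]
    rw [e2, e3]
    have h6 : 0 < (2 : ℝ) ^ ((P.p - 1) / 8 * (i : ℝ)) := by positivity
    field_simp
  rw [h5]
  have h7 : ((2 : ℝ) ^ (-((P.p - 1) / 8))) ^ i =
      (2 : ℝ) ^ ((P.p - 1) / 8 * i) * (2 : ℝ) ^ (-((P.p - 1) * ((i : ℝ) / 4))) := by
    rw [← Real.rpow_natCast, ← Real.rpow_mul (by norm_num), ← Real.rpow_add (by norm_num)]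
    congr 1
    ring
  rw [h7]
  calc 64 * CS / c₂ * (2 : ℝ) ^ ((P.p - 1) / 8 * i) *
        ((max 1 (xhiM i₀ i)) ^ (1 - P.p) + (2 : ℝ) ^ (-(P.g * xhiU P U₀ i)))
      ≤ 64 * CS / c₂ * (2 : ℝ) ^ ((P.p - 1) / 8 * i) *
        ((2 : ℝ) ^ ((P.p - 1) * ((i₀ : ℝ) / 4 + 1)) * (2 : ℝ) ^ (-((P.p - 1) * ((i : ℝ) / 4))) +
          (2 : ℝ) ^ (-((P.p - 1) * ((i : ℝ) / 4)))) := by gcongr
    _ = _ := by ring

theorem hXHI (hYB : Pool.Agent.Helper20.RG.StYB) (hEN1 : StEN1) (hXS : StXS) (hXP : StXP)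
    (hXH : StXH) (hEFB : StEFB) : StXHI := by
  intro P c hc hc1
  have hp1 : 1 < P.p := P.hs.trans P.hsp
  have hp2 := P.hp
  have he : 0 < (P.p - 1) / 8 := by linarith
  have hg := xhi_g_pos P
  obtain ⟨a₁, ha₁, hpt⟩ := xhi_point hYB hEN1 hXP hXH hEFB P c ((P.p - 1) / 8) hc he
  obtain ⟨CS, a₂, hCS, ha₂, hS⟩ := hXS P
  obtain ⟨c₂, hc₂⟩ : ∃ c₂ : ℝ, c₂ = c * (1 - (2 : ℝ) ^ (-((P.p - 1) / 8))) := ⟨_, rfl⟩
  have hρ1 : (2 : ℝ) ^ (-((P.p - 1) / 8)) < 1 :=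
    Real.rpow_lt_one_of_one_lt_of_neg (by norm_num) (by linarith)
  have hρ0 : 0 < (2 : ℝ) ^ (-((P.p - 1) / 8)) := by positivity
  have hc2 : 0 < c₂ := by
    rw [hc₂]
    exact mul_pos hc (by linarith)
  obtain ⟨i₀, hi₀⟩ := xhi_i0 c₂ hc2
  obtain ⟨A, hA⟩ : ∃ A : ℝ, A = 64 * CS / c₂ * ((2 : ℝ) ^ ((P.p - 1) * ((i₀ : ℝ) / 4 + 1)) + 1) :=
    ⟨_, rfl⟩
  have hA0 : 0 < A := by
    rw [hA]
    positivity
  refine ⟨max 1 (A * (1 - (2 : ℝ) ^ (-((P.p - 1) / 8)))⁻¹), max a₁ a₂, le_max_left _ _,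
    ha₁.trans (le_max_left _ _), ?_⟩
  intro Δ ct U₀ U₁ f hSy hU₀ hf
  have hA1 : a₁ ≤ U₀ := (le_max_left _ _).trans hU₀
  have hA2 : a₂ ≤ U₀ := (le_max_right _ _).trans hU₀
  have hterm : ∀ i : ℕ,
      ∑' l : ℤ, ENNReal.ofReal ((2 : ℝ) ^ (P.p * l)) * ∑' k : ℤ,
        volume {x | c₂ * (2 : ℝ) ^ ((1 - (P.p - 1) / 8) * i) ≤
          ((Ht P Δ ct (xhiU P U₀ i) U₁ k ((2 : ℝ) ^ (-((i : ℤ) + 6)))
            (fun u => Gf f (l + (u : ℤ))) x).ncard : ℝ)} ≤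
      ENNReal.ofReal (A * ((2 : ℝ) ^ (-((P.p - 1) / 8))) ^ i) *
        ∫⁻ x, ENNReal.ofReal (f x) ^ P.p := by
    intro i
    have hθ : (2 : ℝ) ^ (-((i : ℤ) + 6)) ≤ 1 := zpow_le_one_of_nonpos₀ (by norm_num) (by omega)
    have hθ0 : (0 : ℝ) < (2 : ℝ) ^ (-((i : ℤ) + 6)) := by positivity
    have e : (2 : ℝ) ^ (-((i : ℤ) + 6)) = (2 : ℝ) ^ (-((i : ℝ) + 6)) := by
      have := xhi_zr i 6
      push_cast at this
      exact this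
    have hM : xhiM i₀ i ≤ 1 / (2 : ℝ) ^ (-((i : ℤ) + 6)) := by
      rw [one_div, ← zpow_neg, neg_neg]
      unfold xhiM
      split_ifs
      · rw [← zpow_natCast]
        refine zpow_le_zpow_right₀ (by norm_num) ?_
        omega
      · positivity
    have h1 := hS Δ ct (xhiU P U₀ i) U₁ ((2 : ℝ) ^ (-((i : ℤ) + 6)))
      (c₂ * (2 : ℝ) ^ ((1 - (P.p - 1) / 8) * i)) (xhiM i₀ i) (i / 4) f hSy
      (hA2.trans (le_max_left _ _)) (by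
        rw [e]
        refine Real.rpow_le_rpow_of_exponent_le (by norm_num) ?_
        have := xhi_U_ge P U₀ i
        linarith) hθ (by positivity) hM (by
        unfold xhiM
        by_cases h : i₀ ≤ i
        · right
          rw [if_pos h]
          exact ⟨by positivity, le_rfl, xhi_ML c₂ ((P.p - 1) / 8) i hc2 (by linarith) (hi₀ i h)⟩
        · left
          rw [if_neg h]) hf
    refine h1.trans (mul_le_mul_left (ENNReal.ofReal_le_ofReal ?_) _)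
    rw [hA]
    exact xhi_coef P CS c₂ U₀ i₀ i (by linarith) hc2
  calc ∑' l : ℤ, ENNReal.ofReal ((2 : ℝ) ^ (P.p * l)) * ∑' k : ℤ,
        volume {x | c ≤ ∑ u ∈ Finset.Icc U₀ U₁, ∑ j ∈ Finset.range (2 ^ u),
          tt P Δ ct (P.g / 8) u j k (Gf f (l + (u : ℤ))) x}
      ≤ ∑' l : ℤ, ENNReal.ofReal ((2 : ℝ) ^ (P.p * l)) * ∑' k : ℤ, ∑' i : ℕ,
        volume {x | c₂ * (2 : ℝ) ^ ((1 - (P.p - 1) / 8) * i) ≤
          ((Ht P Δ ct (xhiU P U₀ i) U₁ k ((2 : ℝ) ^ (-((i : ℤ) + 6)))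
            (fun u => Gf f (l + (u : ℤ))) x).ncard : ℝ)} := by
        refine ENNReal.tsum_le_tsum fun l => mul_le_mul_right (ENNReal.tsum_le_tsum fun k => ?_) _
        refine le_trans (measure_mono ?_) (measure_iUnion_le _)
        intro x hx
        obtain ⟨i, hi⟩ := hpt Δ ct U₀ U₁ f k l x hSy hA1 hf hx
        refine Set.mem_iUnion.mpr ⟨i, ?_⟩
        rw [← hc₂] at hi
        exact hi
    _ = ∑' i : ℕ, ∑' l : ℤ, ENNReal.ofReal ((2 : ℝ) ^ (P.p * l)) * ∑' k : ℤ,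
        volume {x | c₂ * (2 : ℝ) ^ ((1 - (P.p - 1) / 8) * i) ≤
          ((Ht P Δ ct (xhiU P U₀ i) U₁ k ((2 : ℝ) ^ (-((i : ℤ) + 6)))
            (fun u => Gf f (l + (u : ℤ))) x).ncard : ℝ)} := by
        rw [ENNReal.tsum_comm]
        refine tsum_congr fun l => ?_
        rw [ENNReal.tsum_mul_left, ENNReal.tsum_comm]
    _ ≤ ∑' i : ℕ, ENNReal.ofReal (A * ((2 : ℝ) ^ (-((P.p - 1) / 8))) ^ i) *
          ∫⁻ x, ENNReal.ofReal (f x) ^ P.p := ENNReal.tsum_le_tsum hterm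
    _ = ENNReal.ofReal (A * (1 - (2 : ℝ) ^ (-((P.p - 1) / 8)))⁻¹) *
          ∫⁻ x, ENNReal.ofReal (f x) ^ P.p := by
        rw [ENNReal.tsum_mul_right, ← ENNReal.ofReal_tsum_of_nonneg (fun i => by positivity)
          ((summable_geometric_of_lt_one hρ0.le hρ1).mul_left A), tsum_mul_left,
          tsum_geometric_of_lt_one hρ0.le hρ1]
    _ ≤ _ := mul_le_mul_left (ENNReal.ofReal_le_ofReal (le_max_right _ _)) _

end Pool.Agent.Helper78.EP
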